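import Pool.Agent.TW4.So.Arr

namespace Pool.Agent.TW4.So

open Pool.Agent.TW4 Pool.Agent.TW4.Sm

theorem f5_c0 : lvl (stF 5 6 F5) 80 34 (Nat.shiftRight A5 0)
  0x543210432108000124431022432012432102000001332f05000001000000000ffffff6331242000041441032441022331202000023331202000021000001331f05000001000031310f25000000000ffffff6000041000021000001000001000021000001000041000031000031000001220f45220f15000031000021000011000001000001000001220f35000011000001000031000041000041000001000001000011000001 = true := by
  decide +kernel

theorem allF5_0 : ∀ i, 0 ≤ i → i < 34 → QF 5 (ent 5 F5 A5 i) := by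
  intro i hl hi
  exact chunkF 0 34 (by norm_num) full5 f5_c0 i (by omega) (by omega)

end Pool.Agent.TW4.So
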