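import Pool.Agent.TW4.So.Arr

namespace Pool.Agent.TW4.So

open Pool.Agent.TW4 Pool.Agent.TW4.Sm

theorem f6_c0 : lvl (stF 6 7 F6) 96 155 (Nat.shiftRight A6 0)
  0x554f05000021531f05553f05550f35000031000011541f35011110436251554208100000000000106663154206554207431252531042531022431202221f05000033421302000031000001000000020ffffff6554132000011554122554102000000010ffffff6000454000354000053001244000043001234000033000123000001442312554302000000010ffffff6554232443252000031440212441202000001000000010ffffff6442352000051442312442302000000000620010000654310555527002344001244000244000243001234000234000233000124000123000023431052431022531f05440f25000021000000010111110600000004344444360000000525555526000051000041000031000021000011000001000454001354000153000043000234000233000453000354001244000133000023510242551232000021540312541202000001331f05000000010ffffff6554232443152000031220512442102000001221f05000001000000030ffffff6000053000143000041000133000023000031000021000453000233000013000011000001000001000001440322442302000051000011330422332102000051000011210452210432000041520312521302521f05521f05551f05552f45000001440132554022443202000011330542440132000021552312443202000001000001000001542f05000011000011000011000453000253000033000013000051000001000001000031000021000031440152550242000031440322550312000021000001000011000021000021441f55000031000021000011000001000001000031000051000031000021000011554f05000051000051000001000001000001000001000011110f45000041000041000001431f05000001552f35000041000041320f55000011320f15000000001ffffff6330252330212000041000011000001110f45443f05441f05000011000011530f15553f05000041331f05553f15000021000001000021000001220f45000001000021000021000051000021000001000001000001000041000001000031000031440f35000001000153000051000011331f05330f45551f25220142220132442302000051000051000041000031000001000011000041220f55000031000011000041000041000001000001551f05000051000031000021000001000001000031000051000021000051000021000011000051000021000011000051000051000051000031000031000021000001000001000011000001000001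 = true := by
  decide +kernel

theorem allF6_0 : ∀ i, 0 ≤ i → i < 155 → QF 6 (ent 6 F6 A6 i) := by
  intro i hl hi
  exact chunkF 0 155 (by norm_num) full6 f6_c0 i (by omega) (by omega)

end Pool.Agent.TW4.So
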