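import Pool.Agent.TW4.So.Data.F8_0a
import Pool.Agent.TW4.So.Data.F8_0b
import Pool.Agent.TW4.So.Data.F8_0c
import Pool.Agent.TW4.So.Data.F8_0d
import Pool.Agent.TW4.So.Data.F8_0e

namespace Pool.Agent.TW4.So

open Pool.Agent.TW4 Pool.Agent.TW4.Sm

theorem allF8_0 : ∀ i, 0 ≤ i → i < 11767 → QF 8 (ent 8 F8 A8 i) := by
  intro i hl hi
  rcases Nat.lt_or_ge i 400 with h0 | h0
  · exact chunkF 0 400 (by norm_num) full8 f8_c0 i (by omega) (by omega)
  rcases Nat.lt_or_ge i 800 with h1 | h1
  · exact chunkF 400 400 (by norm_num) full8 f8_c1 i (by omega) (by omega)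
  rcases Nat.lt_or_ge i 1200 with h2 | h2
  · exact chunkF 800 400 (by norm_num) full8 f8_c2 i (by omega) (by omega)
  rcases Nat.lt_or_ge i 1600 with h3 | h3
  · exact chunkF 1200 400 (by norm_num) full8 f8_c3 i (by omega) (by omega)
  rcases Nat.lt_or_ge i 2000 with h4 | h4
  · exact chunkF 1600 400 (by norm_num) full8 f8_c4 i (by omega) (by omega)
  rcases Nat.lt_or_ge i 2400 with h5 | h5
  · exact chunkF 2000 400 (by norm_num) full8 f8_c5 i (by omega) (by omega)
  rcases Nat.lt_or_ge i 2800 with h6 | h6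
  · exact chunkF 2400 400 (by norm_num) full8 f8_c6 i (by omega) (by omega)
  rcases Nat.lt_or_ge i 3153 with h7 | h7
  · exact chunkF 2800 353 (by norm_num) full8 f8_c7 i (by omega) (by omega)
  rcases Nat.lt_or_ge i 3553 with h8 | h8
  · exact chunkF 3153 400 (by norm_num) full8 f8_c8 i (by omega) (by omega)
  rcases Nat.lt_or_ge i 3953 with h9 | h9
  · exact chunkF 3553 400 (by norm_num) full8 f8_c9 i (by omega) (by omega)
  rcases Nat.lt_or_ge i 4353 with h10 | h10
  · exact chunkF 3953 400 (by norm_num) full8 f8_c10 i (by omega) (by omega)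
  rcases Nat.lt_or_ge i 4629 with h11 | h11
  · exact chunkF 4353 276 (by norm_num) full8 f8_c11 i (by omega) (by omega)
  rcases Nat.lt_or_ge i 5029 with h12 | h12
  · exact chunkF 4629 400 (by norm_num) full8 f8_c12 i (by omega) (by omega)
  rcases Nat.lt_or_ge i 5283 with h13 | h13
  · exact chunkF 5029 254 (by norm_num) full8 f8_c13 i (by omega) (by omega)
  rcases Nat.lt_or_ge i 5638 with h14 | h14
  · exact chunkF 5283 355 (by norm_num) full8 f8_c14 i (by omega) (by omega)
  rcases Nat.lt_or_ge i 5972 with h15 | h15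
  · exact chunkF 5638 334 (by norm_num) full8 f8_c15 i (by omega) (by omega)
  rcases Nat.lt_or_ge i 6372 with h16 | h16
  · exact chunkF 5972 400 (by norm_num) full8 f8_c16 i (by omega) (by omega)
  rcases Nat.lt_or_ge i 6772 with h17 | h17
  · exact chunkF 6372 400 (by norm_num) full8 f8_c17 i (by omega) (by omega)
  rcases Nat.lt_or_ge i 7172 with h18 | h18
  · exact chunkF 6772 400 (by norm_num) full8 f8_c18 i (by omega) (by omega)
  rcases Nat.lt_or_ge i 7426 with h19 | h19
  · exact chunkF 7172 254 (by norm_num) full8 f8_c19 i (by omega) (by omega)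
  rcases Nat.lt_or_ge i 7826 with h20 | h20
  · exact chunkF 7426 400 (by norm_num) full8 f8_c20 i (by omega) (by omega)
  rcases Nat.lt_or_ge i 8149 with h21 | h21
  · exact chunkF 7826 323 (by norm_num) full8 f8_c21 i (by omega) (by omega)
  rcases Nat.lt_or_ge i 8458 with h22 | h22
  · exact chunkF 8149 309 (by norm_num) full8 f8_c22 i (by omega) (by omega)
  rcases Nat.lt_or_ge i 8803 with h23 | h23
  · exact chunkF 8458 345 (by norm_num) full8 f8_c23 i (by omega) (by omega)
  rcases Nat.lt_or_ge i 9203 with h24 | h24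
  · exact chunkF 8803 400 (by norm_num) full8 f8_c24 i (by omega) (by omega)
  rcases Nat.lt_or_ge i 9494 with h25 | h25
  · exact chunkF 9203 291 (by norm_num) full8 f8_c25 i (by omega) (by omega)
  rcases Nat.lt_or_ge i 9790 with h26 | h26
  · exact chunkF 9494 296 (by norm_num) full8 f8_c26 i (by omega) (by omega)
  rcases Nat.lt_or_ge i 10007 with h27 | h27
  · exact chunkF 9790 217 (by norm_num) full8 f8_c27 i (by omega) (by omega)
  rcases Nat.lt_or_ge i 10334 with h28 | h28
  · exact chunkF 10007 327 (by norm_num) full8 f8_c28 i (by omega) (by omega)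
  rcases Nat.lt_or_ge i 10585 with h29 | h29
  · exact chunkF 10334 251 (by norm_num) full8 f8_c29 i (by omega) (by omega)
  rcases Nat.lt_or_ge i 10856 with h30 | h30
  · exact chunkF 10585 271 (by norm_num) full8 f8_c30 i (by omega) (by omega)
  rcases Nat.lt_or_ge i 11095 with h31 | h31
  · exact chunkF 10856 239 (by norm_num) full8 f8_c31 i (by omega) (by omega)
  rcases Nat.lt_or_ge i 11471 with h32 | h32
  · exact chunkF 11095 376 (by norm_num) full8 f8_c32 i (by omega) (by omega)
  exact chunkF 11471 296 (by norm_num) full8 f8_c33 i (by omega) (by omega)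

end Pool.Agent.TW4.So
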