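import Pool.Agent.TW4.So.Data.F9_0a
import Pool.Agent.TW4.So.Data.F9_0b
import Pool.Agent.TW4.So.Data.F9_0c
import Pool.Agent.TW4.So.Data.F9_0d
import Pool.Agent.TW4.So.Data.F9_0e

namespace Pool.Agent.TW4.So

open Pool.Agent.TW4 Pool.Agent.TW4.Sm

theorem allF9_0 : ∀ i, 0 ≤ i → i < 3606 → QF 9 (ent 9 F9 A9 i) := by
  intro i hl hi
  rcases Nat.lt_or_ge i 138 with h0 | h0
  · exact chunkF 0 138 (by norm_num) full9 f9_c0 i (by omega) (by omega)
  rcases Nat.lt_or_ge i 251 with h1 | h1
  · exact chunkF 138 113 (by norm_num) full9 f9_c1 i (by omega) (by omega)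
  rcases Nat.lt_or_ge i 366 with h2 | h2
  · exact chunkF 251 115 (by norm_num) full9 f9_c2 i (by omega) (by omega)
  rcases Nat.lt_or_ge i 481 with h3 | h3
  · exact chunkF 366 115 (by norm_num) full9 f9_c3 i (by omega) (by omega)
  rcases Nat.lt_or_ge i 578 with h4 | h4
  · exact chunkF 481 97 (by norm_num) full9 f9_c4 i (by omega) (by omega)
  rcases Nat.lt_or_ge i 686 with h5 | h5
  · exact chunkF 578 108 (by norm_num) full9 f9_c5 i (by omega) (by omega)
  rcases Nat.lt_or_ge i 779 with h6 | h6
  · exact chunkF 686 93 (by norm_num) full9 f9_c6 i (by omega) (by omega)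
  rcases Nat.lt_or_ge i 863 with h7 | h7
  · exact chunkF 779 84 (by norm_num) full9 f9_c7 i (by omega) (by omega)
  rcases Nat.lt_or_ge i 972 with h8 | h8
  · exact chunkF 863 109 (by norm_num) full9 f9_c8 i (by omega) (by omega)
  rcases Nat.lt_or_ge i 1057 with h9 | h9
  · exact chunkF 972 85 (by norm_num) full9 f9_c9 i (by omega) (by omega)
  rcases Nat.lt_or_ge i 1144 with h10 | h10
  · exact chunkF 1057 87 (by norm_num) full9 f9_c10 i (by omega) (by omega)
  rcases Nat.lt_or_ge i 1210 with h11 | h11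
  · exact chunkF 1144 66 (by norm_num) full9 f9_c11 i (by omega) (by omega)
  rcases Nat.lt_or_ge i 1320 with h12 | h12
  · exact chunkF 1210 110 (by norm_num) full9 f9_c12 i (by omega) (by omega)
  rcases Nat.lt_or_ge i 1436 with h13 | h13
  · exact chunkF 1320 116 (by norm_num) full9 f9_c13 i (by omega) (by omega)
  rcases Nat.lt_or_ge i 1561 with h14 | h14
  · exact chunkF 1436 125 (by norm_num) full9 f9_c14 i (by omega) (by omega)
  rcases Nat.lt_or_ge i 1664 with h15 | h15
  · exact chunkF 1561 103 (by norm_num) full9 f9_c15 i (by omega) (by omega)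
  rcases Nat.lt_or_ge i 1760 with h16 | h16
  · exact chunkF 1664 96 (by norm_num) full9 f9_c16 i (by omega) (by omega)
  rcases Nat.lt_or_ge i 1865 with h17 | h17
  · exact chunkF 1760 105 (by norm_num) full9 f9_c17 i (by omega) (by omega)
  rcases Nat.lt_or_ge i 1959 with h18 | h18
  · exact chunkF 1865 94 (by norm_num) full9 f9_c18 i (by omega) (by omega)
  rcases Nat.lt_or_ge i 2046 with h19 | h19
  · exact chunkF 1959 87 (by norm_num) full9 f9_c19 i (by omega) (by omega)
  rcases Nat.lt_or_ge i 2112 with h20 | h20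
  · exact chunkF 2046 66 (by norm_num) full9 f9_c20 i (by omega) (by omega)
  rcases Nat.lt_or_ge i 2189 with h21 | h21
  · exact chunkF 2112 77 (by norm_num) full9 f9_c21 i (by omega) (by omega)
  rcases Nat.lt_or_ge i 2287 with h22 | h22
  · exact chunkF 2189 98 (by norm_num) full9 f9_c22 i (by omega) (by omega)
  rcases Nat.lt_or_ge i 2386 with h23 | h23
  · exact chunkF 2287 99 (by norm_num) full9 f9_c23 i (by omega) (by omega)
  rcases Nat.lt_or_ge i 2485 with h24 | h24
  · exact chunkF 2386 99 (by norm_num) full9 f9_c24 i (by omega) (by omega)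
  rcases Nat.lt_or_ge i 2566 with h25 | h25
  · exact chunkF 2485 81 (by norm_num) full9 f9_c25 i (by omega) (by omega)
  rcases Nat.lt_or_ge i 2633 with h26 | h26
  · exact chunkF 2566 67 (by norm_num) full9 f9_c26 i (by omega) (by omega)
  rcases Nat.lt_or_ge i 2693 with h27 | h27
  · exact chunkF 2633 60 (by norm_num) full9 f9_c27 i (by omega) (by omega)
  rcases Nat.lt_or_ge i 2753 with h28 | h28
  · exact chunkF 2693 60 (by norm_num) full9 f9_c28 i (by omega) (by omega)
  rcases Nat.lt_or_ge i 2841 with h29 | h29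
  · exact chunkF 2753 88 (by norm_num) full9 f9_c29 i (by omega) (by omega)
  rcases Nat.lt_or_ge i 2929 with h30 | h30
  · exact chunkF 2841 88 (by norm_num) full9 f9_c30 i (by omega) (by omega)
  rcases Nat.lt_or_ge i 3005 with h31 | h31
  · exact chunkF 2929 76 (by norm_num) full9 f9_c31 i (by omega) (by omega)
  rcases Nat.lt_or_ge i 3074 with h32 | h32
  · exact chunkF 3005 69 (by norm_num) full9 f9_c32 i (by omega) (by omega)
  rcases Nat.lt_or_ge i 3133 with h33 | h33
  · exact chunkF 3074 59 (by norm_num) full9 f9_c33 i (by omega) (by omega)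
  rcases Nat.lt_or_ge i 3214 with h34 | h34
  · exact chunkF 3133 81 (by norm_num) full9 f9_c34 i (by omega) (by omega)
  rcases Nat.lt_or_ge i 3288 with h35 | h35
  · exact chunkF 3214 74 (by norm_num) full9 f9_c35 i (by omega) (by omega)
  rcases Nat.lt_or_ge i 3369 with h36 | h36
  · exact chunkF 3288 81 (by norm_num) full9 f9_c36 i (by omega) (by omega)
  rcases Nat.lt_or_ge i 3442 with h37 | h37
  · exact chunkF 3369 73 (by norm_num) full9 f9_c37 i (by omega) (by omega)
  rcases Nat.lt_or_ge i 3516 with h38 | h38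
  · exact chunkF 3442 74 (by norm_num) full9 f9_c38 i (by omega) (by omega)
  exact chunkF 3516 90 (by norm_num) full9 f9_c39 i (by omega) (by omega)

end Pool.Agent.TW4.So
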