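import Pool.Agent.TW4.So.Data.F9_1a
import Pool.Agent.TW4.So.Data.F9_1b
import Pool.Agent.TW4.So.Data.F9_1c
import Pool.Agent.TW4.So.Data.F9_1d
import Pool.Agent.TW4.So.Data.F9_1e

namespace Pool.Agent.TW4.So

open Pool.Agent.TW4 Pool.Agent.TW4.Sm

theorem allF9_1 : ∀ i, 3606 ≤ i → i < 6899 → QF 9 (ent 9 F9 A9 i) := by
  intro i hl hi
  rcases Nat.lt_or_ge i 3702 with h0 | h0
  · exact chunkF 3606 96 (by norm_num) full9 f9_c40 i (by omega) (by omega)
  rcases Nat.lt_or_ge i 3813 with h1 | h1
  · exact chunkF 3702 111 (by norm_num) full9 f9_c41 i (by omega) (by omega)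
  rcases Nat.lt_or_ge i 3922 with h2 | h2
  · exact chunkF 3813 109 (by norm_num) full9 f9_c42 i (by omega) (by omega)
  rcases Nat.lt_or_ge i 4017 with h3 | h3
  · exact chunkF 3922 95 (by norm_num) full9 f9_c43 i (by omega) (by omega)
  rcases Nat.lt_or_ge i 4116 with h4 | h4
  · exact chunkF 4017 99 (by norm_num) full9 f9_c44 i (by omega) (by omega)
  rcases Nat.lt_or_ge i 4207 with h5 | h5
  · exact chunkF 4116 91 (by norm_num) full9 f9_c45 i (by omega) (by omega)
  rcases Nat.lt_or_ge i 4274 with h6 | h6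
  · exact chunkF 4207 67 (by norm_num) full9 f9_c46 i (by omega) (by omega)
  rcases Nat.lt_or_ge i 4342 with h7 | h7
  · exact chunkF 4274 68 (by norm_num) full9 f9_c47 i (by omega) (by omega)
  rcases Nat.lt_or_ge i 4443 with h8 | h8
  · exact chunkF 4342 101 (by norm_num) full9 f9_c48 i (by omega) (by omega)
  rcases Nat.lt_or_ge i 4548 with h9 | h9
  · exact chunkF 4443 105 (by norm_num) full9 f9_c49 i (by omega) (by omega)
  rcases Nat.lt_or_ge i 4644 with h10 | h10
  · exact chunkF 4548 96 (by norm_num) full9 f9_c50 i (by omega) (by omega)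
  rcases Nat.lt_or_ge i 4731 with h11 | h11
  · exact chunkF 4644 87 (by norm_num) full9 f9_c51 i (by omega) (by omega)
  rcases Nat.lt_or_ge i 4816 with h12 | h12
  · exact chunkF 4731 85 (by norm_num) full9 f9_c52 i (by omega) (by omega)
  rcases Nat.lt_or_ge i 4890 with h13 | h13
  · exact chunkF 4816 74 (by norm_num) full9 f9_c53 i (by omega) (by omega)
  rcases Nat.lt_or_ge i 4946 with h14 | h14
  · exact chunkF 4890 56 (by norm_num) full9 f9_c54 i (by omega) (by omega)
  rcases Nat.lt_or_ge i 5036 with h15 | h15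
  · exact chunkF 4946 90 (by norm_num) full9 f9_c55 i (by omega) (by omega)
  rcases Nat.lt_or_ge i 5131 with h16 | h16
  · exact chunkF 5036 95 (by norm_num) full9 f9_c56 i (by omega) (by omega)
  rcases Nat.lt_or_ge i 5198 with h17 | h17
  · exact chunkF 5131 67 (by norm_num) full9 f9_c57 i (by omega) (by omega)
  rcases Nat.lt_or_ge i 5260 with h18 | h18
  · exact chunkF 5198 62 (by norm_num) full9 f9_c58 i (by omega) (by omega)
  rcases Nat.lt_or_ge i 5328 with h19 | h19
  · exact chunkF 5260 68 (by norm_num) full9 f9_c59 i (by omega) (by omega)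
  rcases Nat.lt_or_ge i 5411 with h20 | h20
  · exact chunkF 5328 83 (by norm_num) full9 f9_c60 i (by omega) (by omega)
  rcases Nat.lt_or_ge i 5490 with h21 | h21
  · exact chunkF 5411 79 (by norm_num) full9 f9_c61 i (by omega) (by omega)
  rcases Nat.lt_or_ge i 5550 with h22 | h22
  · exact chunkF 5490 60 (by norm_num) full9 f9_c62 i (by omega) (by omega)
  rcases Nat.lt_or_ge i 5620 with h23 | h23
  · exact chunkF 5550 70 (by norm_num) full9 f9_c63 i (by omega) (by omega)
  rcases Nat.lt_or_ge i 5691 with h24 | h24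
  · exact chunkF 5620 71 (by norm_num) full9 f9_c64 i (by omega) (by omega)
  rcases Nat.lt_or_ge i 5762 with h25 | h25
  · exact chunkF 5691 71 (by norm_num) full9 f9_c65 i (by omega) (by omega)
  rcases Nat.lt_or_ge i 5866 with h26 | h26
  · exact chunkF 5762 104 (by norm_num) full9 f9_c66 i (by omega) (by omega)
  rcases Nat.lt_or_ge i 5956 with h27 | h27
  · exact chunkF 5866 90 (by norm_num) full9 f9_c67 i (by omega) (by omega)
  rcases Nat.lt_or_ge i 6046 with h28 | h28
  · exact chunkF 5956 90 (by norm_num) full9 f9_c68 i (by omega) (by omega)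
  rcases Nat.lt_or_ge i 6146 with h29 | h29
  · exact chunkF 6046 100 (by norm_num) full9 f9_c69 i (by omega) (by omega)
  rcases Nat.lt_or_ge i 6234 with h30 | h30
  · exact chunkF 6146 88 (by norm_num) full9 f9_c70 i (by omega) (by omega)
  rcases Nat.lt_or_ge i 6303 with h31 | h31
  · exact chunkF 6234 69 (by norm_num) full9 f9_c71 i (by omega) (by omega)
  rcases Nat.lt_or_ge i 6377 with h32 | h32
  · exact chunkF 6303 74 (by norm_num) full9 f9_c72 i (by omega) (by omega)
  rcases Nat.lt_or_ge i 6473 with h33 | h33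
  · exact chunkF 6377 96 (by norm_num) full9 f9_c73 i (by omega) (by omega)
  rcases Nat.lt_or_ge i 6573 with h34 | h34
  · exact chunkF 6473 100 (by norm_num) full9 f9_c74 i (by omega) (by omega)
  rcases Nat.lt_or_ge i 6646 with h35 | h35
  · exact chunkF 6573 73 (by norm_num) full9 f9_c75 i (by omega) (by omega)
  rcases Nat.lt_or_ge i 6712 with h36 | h36
  · exact chunkF 6646 66 (by norm_num) full9 f9_c76 i (by omega) (by omega)
  rcases Nat.lt_or_ge i 6777 with h37 | h37
  · exact chunkF 6712 65 (by norm_num) full9 f9_c77 i (by omega) (by omega)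
  rcases Nat.lt_or_ge i 6840 with h38 | h38
  · exact chunkF 6777 63 (by norm_num) full9 f9_c78 i (by omega) (by omega)
  exact chunkF 6840 59 (by norm_num) full9 f9_c79 i (by omega) (by omega)

end Pool.Agent.TW4.So
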