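import Pool.Agent.TW4.So.Data.F9_10a
import Pool.Agent.TW4.So.Data.F9_10b
import Pool.Agent.TW4.So.Data.F9_10c
import Pool.Agent.TW4.So.Data.F9_10d
import Pool.Agent.TW4.So.Data.F9_10e

namespace Pool.Agent.TW4.So

open Pool.Agent.TW4 Pool.Agent.TW4.Sm

theorem allF9_10 : ∀ i, 32056 ≤ i → i < 35083 → QF 9 (ent 9 F9 A9 i) := by
  intro i hl hi
  rcases Nat.lt_or_ge i 32141 with h0 | h0
  · exact chunkF 32056 85 (by norm_num) full9 f9_c400 i (by omega) (by omega)
  rcases Nat.lt_or_ge i 32232 with h1 | h1
  · exact chunkF 32141 91 (by norm_num) full9 f9_c401 i (by omega) (by omega)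
  rcases Nat.lt_or_ge i 32318 with h2 | h2
  · exact chunkF 32232 86 (by norm_num) full9 f9_c402 i (by omega) (by omega)
  rcases Nat.lt_or_ge i 32384 with h3 | h3
  · exact chunkF 32318 66 (by norm_num) full9 f9_c403 i (by omega) (by omega)
  rcases Nat.lt_or_ge i 32445 with h4 | h4
  · exact chunkF 32384 61 (by norm_num) full9 f9_c404 i (by omega) (by omega)
  rcases Nat.lt_or_ge i 32523 with h5 | h5
  · exact chunkF 32445 78 (by norm_num) full9 f9_c405 i (by omega) (by omega)
  rcases Nat.lt_or_ge i 32602 with h6 | h6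
  · exact chunkF 32523 79 (by norm_num) full9 f9_c406 i (by omega) (by omega)
  rcases Nat.lt_or_ge i 32677 with h7 | h7
  · exact chunkF 32602 75 (by norm_num) full9 f9_c407 i (by omega) (by omega)
  rcases Nat.lt_or_ge i 32740 with h8 | h8
  · exact chunkF 32677 63 (by norm_num) full9 f9_c408 i (by omega) (by omega)
  rcases Nat.lt_or_ge i 32817 with h9 | h9
  · exact chunkF 32740 77 (by norm_num) full9 f9_c409 i (by omega) (by omega)
  rcases Nat.lt_or_ge i 32897 with h10 | h10
  · exact chunkF 32817 80 (by norm_num) full9 f9_c410 i (by omega) (by omega)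
  rcases Nat.lt_or_ge i 32974 with h11 | h11
  · exact chunkF 32897 77 (by norm_num) full9 f9_c411 i (by omega) (by omega)
  rcases Nat.lt_or_ge i 33029 with h12 | h12
  · exact chunkF 32974 55 (by norm_num) full9 f9_c412 i (by omega) (by omega)
  rcases Nat.lt_or_ge i 33087 with h13 | h13
  · exact chunkF 33029 58 (by norm_num) full9 f9_c413 i (by omega) (by omega)
  rcases Nat.lt_or_ge i 33168 with h14 | h14
  · exact chunkF 33087 81 (by norm_num) full9 f9_c414 i (by omega) (by omega)
  rcases Nat.lt_or_ge i 33232 with h15 | h15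
  · exact chunkF 33168 64 (by norm_num) full9 f9_c415 i (by omega) (by omega)
  rcases Nat.lt_or_ge i 33315 with h16 | h16
  · exact chunkF 33232 83 (by norm_num) full9 f9_c416 i (by omega) (by omega)
  rcases Nat.lt_or_ge i 33384 with h17 | h17
  · exact chunkF 33315 69 (by norm_num) full9 f9_c417 i (by omega) (by omega)
  rcases Nat.lt_or_ge i 33472 with h18 | h18
  · exact chunkF 33384 88 (by norm_num) full9 f9_c418 i (by omega) (by omega)
  rcases Nat.lt_or_ge i 33550 with h19 | h19
  · exact chunkF 33472 78 (by norm_num) full9 f9_c419 i (by omega) (by omega)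
  rcases Nat.lt_or_ge i 33635 with h20 | h20
  · exact chunkF 33550 85 (by norm_num) full9 f9_c420 i (by omega) (by omega)
  rcases Nat.lt_or_ge i 33706 with h21 | h21
  · exact chunkF 33635 71 (by norm_num) full9 f9_c421 i (by omega) (by omega)
  rcases Nat.lt_or_ge i 33802 with h22 | h22
  · exact chunkF 33706 96 (by norm_num) full9 f9_c422 i (by omega) (by omega)
  rcases Nat.lt_or_ge i 33892 with h23 | h23
  · exact chunkF 33802 90 (by norm_num) full9 f9_c423 i (by omega) (by omega)
  rcases Nat.lt_or_ge i 33962 with h24 | h24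
  · exact chunkF 33892 70 (by norm_num) full9 f9_c424 i (by omega) (by omega)
  rcases Nat.lt_or_ge i 34053 with h25 | h25
  · exact chunkF 33962 91 (by norm_num) full9 f9_c425 i (by omega) (by omega)
  rcases Nat.lt_or_ge i 34138 with h26 | h26
  · exact chunkF 34053 85 (by norm_num) full9 f9_c426 i (by omega) (by omega)
  rcases Nat.lt_or_ge i 34225 with h27 | h27
  · exact chunkF 34138 87 (by norm_num) full9 f9_c427 i (by omega) (by omega)
  rcases Nat.lt_or_ge i 34318 with h28 | h28
  · exact chunkF 34225 93 (by norm_num) full9 f9_c428 i (by omega) (by omega)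
  rcases Nat.lt_or_ge i 34387 with h29 | h29
  · exact chunkF 34318 69 (by norm_num) full9 f9_c429 i (by omega) (by omega)
  rcases Nat.lt_or_ge i 34449 with h30 | h30
  · exact chunkF 34387 62 (by norm_num) full9 f9_c430 i (by omega) (by omega)
  rcases Nat.lt_or_ge i 34523 with h31 | h31
  · exact chunkF 34449 74 (by norm_num) full9 f9_c431 i (by omega) (by omega)
  rcases Nat.lt_or_ge i 34578 with h32 | h32
  · exact chunkF 34523 55 (by norm_num) full9 f9_c432 i (by omega) (by omega)
  rcases Nat.lt_or_ge i 34639 with h33 | h33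
  · exact chunkF 34578 61 (by norm_num) full9 f9_c433 i (by omega) (by omega)
  rcases Nat.lt_or_ge i 34722 with h34 | h34
  · exact chunkF 34639 83 (by norm_num) full9 f9_c434 i (by omega) (by omega)
  rcases Nat.lt_or_ge i 34805 with h35 | h35
  · exact chunkF 34722 83 (by norm_num) full9 f9_c435 i (by omega) (by omega)
  rcases Nat.lt_or_ge i 34876 with h36 | h36
  · exact chunkF 34805 71 (by norm_num) full9 f9_c436 i (by omega) (by omega)
  rcases Nat.lt_or_ge i 34935 with h37 | h37
  · exact chunkF 34876 59 (by norm_num) full9 f9_c437 i (by omega) (by omega)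
  rcases Nat.lt_or_ge i 35009 with h38 | h38
  · exact chunkF 34935 74 (by norm_num) full9 f9_c438 i (by omega) (by omega)
  exact chunkF 35009 74 (by norm_num) full9 f9_c439 i (by omega) (by omega)

end Pool.Agent.TW4.So
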