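import Pool.Agent.TW4.So.Data.F9_11a
import Pool.Agent.TW4.So.Data.F9_11b
import Pool.Agent.TW4.So.Data.F9_11c
import Pool.Agent.TW4.So.Data.F9_11d
import Pool.Agent.TW4.So.Data.F9_11e

namespace Pool.Agent.TW4.So

open Pool.Agent.TW4 Pool.Agent.TW4.Sm

theorem allF9_11 : ∀ i, 35083 ≤ i → i < 38231 → QF 9 (ent 9 F9 A9 i) := by
  intro i hl hi
  rcases Nat.lt_or_ge i 35166 with h0 | h0
  · exact chunkF 35083 83 (by norm_num) full9 f9_c440 i (by omega) (by omega)
  rcases Nat.lt_or_ge i 35257 with h1 | h1
  · exact chunkF 35166 91 (by norm_num) full9 f9_c441 i (by omega) (by omega)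
  rcases Nat.lt_or_ge i 35327 with h2 | h2
  · exact chunkF 35257 70 (by norm_num) full9 f9_c442 i (by omega) (by omega)
  rcases Nat.lt_or_ge i 35408 with h3 | h3
  · exact chunkF 35327 81 (by norm_num) full9 f9_c443 i (by omega) (by omega)
  rcases Nat.lt_or_ge i 35511 with h4 | h4
  · exact chunkF 35408 103 (by norm_num) full9 f9_c444 i (by omega) (by omega)
  rcases Nat.lt_or_ge i 35579 with h5 | h5
  · exact chunkF 35511 68 (by norm_num) full9 f9_c445 i (by omega) (by omega)
  rcases Nat.lt_or_ge i 35643 with h6 | h6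
  · exact chunkF 35579 64 (by norm_num) full9 f9_c446 i (by omega) (by omega)
  rcases Nat.lt_or_ge i 35728 with h7 | h7
  · exact chunkF 35643 85 (by norm_num) full9 f9_c447 i (by omega) (by omega)
  rcases Nat.lt_or_ge i 35801 with h8 | h8
  · exact chunkF 35728 73 (by norm_num) full9 f9_c448 i (by omega) (by omega)
  rcases Nat.lt_or_ge i 35875 with h9 | h9
  · exact chunkF 35801 74 (by norm_num) full9 f9_c449 i (by omega) (by omega)
  rcases Nat.lt_or_ge i 35953 with h10 | h10
  · exact chunkF 35875 78 (by norm_num) full9 f9_c450 i (by omega) (by omega)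
  rcases Nat.lt_or_ge i 36028 with h11 | h11
  · exact chunkF 35953 75 (by norm_num) full9 f9_c451 i (by omega) (by omega)
  rcases Nat.lt_or_ge i 36102 with h12 | h12
  · exact chunkF 36028 74 (by norm_num) full9 f9_c452 i (by omega) (by omega)
  rcases Nat.lt_or_ge i 36170 with h13 | h13
  · exact chunkF 36102 68 (by norm_num) full9 f9_c453 i (by omega) (by omega)
  rcases Nat.lt_or_ge i 36240 with h14 | h14
  · exact chunkF 36170 70 (by norm_num) full9 f9_c454 i (by omega) (by omega)
  rcases Nat.lt_or_ge i 36308 with h15 | h15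
  · exact chunkF 36240 68 (by norm_num) full9 f9_c455 i (by omega) (by omega)
  rcases Nat.lt_or_ge i 36387 with h16 | h16
  · exact chunkF 36308 79 (by norm_num) full9 f9_c456 i (by omega) (by omega)
  rcases Nat.lt_or_ge i 36460 with h17 | h17
  · exact chunkF 36387 73 (by norm_num) full9 f9_c457 i (by omega) (by omega)
  rcases Nat.lt_or_ge i 36536 with h18 | h18
  · exact chunkF 36460 76 (by norm_num) full9 f9_c458 i (by omega) (by omega)
  rcases Nat.lt_or_ge i 36653 with h19 | h19
  · exact chunkF 36536 117 (by norm_num) full9 f9_c459 i (by omega) (by omega)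
  rcases Nat.lt_or_ge i 36700 with h20 | h20
  · exact chunkF 36653 47 (by norm_num) full9 f9_c460 i (by omega) (by omega)
  rcases Nat.lt_or_ge i 36782 with h21 | h21
  · exact chunkF 36700 82 (by norm_num) full9 f9_c461 i (by omega) (by omega)
  rcases Nat.lt_or_ge i 36844 with h22 | h22
  · exact chunkF 36782 62 (by norm_num) full9 f9_c462 i (by omega) (by omega)
  rcases Nat.lt_or_ge i 36915 with h23 | h23
  · exact chunkF 36844 71 (by norm_num) full9 f9_c463 i (by omega) (by omega)
  rcases Nat.lt_or_ge i 36990 with h24 | h24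
  · exact chunkF 36915 75 (by norm_num) full9 f9_c464 i (by omega) (by omega)
  rcases Nat.lt_or_ge i 37057 with h25 | h25
  · exact chunkF 36990 67 (by norm_num) full9 f9_c465 i (by omega) (by omega)
  rcases Nat.lt_or_ge i 37141 with h26 | h26
  · exact chunkF 37057 84 (by norm_num) full9 f9_c466 i (by omega) (by omega)
  rcases Nat.lt_or_ge i 37213 with h27 | h27
  · exact chunkF 37141 72 (by norm_num) full9 f9_c467 i (by omega) (by omega)
  rcases Nat.lt_or_ge i 37303 with h28 | h28
  · exact chunkF 37213 90 (by norm_num) full9 f9_c468 i (by omega) (by omega)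
  rcases Nat.lt_or_ge i 37368 with h29 | h29
  · exact chunkF 37303 65 (by norm_num) full9 f9_c469 i (by omega) (by omega)
  rcases Nat.lt_or_ge i 37471 with h30 | h30
  · exact chunkF 37368 103 (by norm_num) full9 f9_c470 i (by omega) (by omega)
  rcases Nat.lt_or_ge i 37553 with h31 | h31
  · exact chunkF 37471 82 (by norm_num) full9 f9_c471 i (by omega) (by omega)
  rcases Nat.lt_or_ge i 37643 with h32 | h32
  · exact chunkF 37553 90 (by norm_num) full9 f9_c472 i (by omega) (by omega)
  rcases Nat.lt_or_ge i 37725 with h33 | h33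
  · exact chunkF 37643 82 (by norm_num) full9 f9_c473 i (by omega) (by omega)
  rcases Nat.lt_or_ge i 37828 with h34 | h34
  · exact chunkF 37725 103 (by norm_num) full9 f9_c474 i (by omega) (by omega)
  rcases Nat.lt_or_ge i 37909 with h35 | h35
  · exact chunkF 37828 81 (by norm_num) full9 f9_c475 i (by omega) (by omega)
  rcases Nat.lt_or_ge i 37977 with h36 | h36
  · exact chunkF 37909 68 (by norm_num) full9 f9_c476 i (by omega) (by omega)
  rcases Nat.lt_or_ge i 38069 with h37 | h37
  · exact chunkF 37977 92 (by norm_num) full9 f9_c477 i (by omega) (by omega)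
  rcases Nat.lt_or_ge i 38157 with h38 | h38
  · exact chunkF 38069 88 (by norm_num) full9 f9_c478 i (by omega) (by omega)
  exact chunkF 38157 74 (by norm_num) full9 f9_c479 i (by omega) (by omega)

end Pool.Agent.TW4.So
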