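import Pool.Agent.TW4.So.Data.F9_2a
import Pool.Agent.TW4.So.Data.F9_2b
import Pool.Agent.TW4.So.Data.F9_2c
import Pool.Agent.TW4.So.Data.F9_2d
import Pool.Agent.TW4.So.Data.F9_2e

namespace Pool.Agent.TW4.So

open Pool.Agent.TW4 Pool.Agent.TW4.Sm

theorem allF9_2 : ∀ i, 6899 ≤ i → i < 10108 → QF 9 (ent 9 F9 A9 i) := by
  intro i hl hi
  rcases Nat.lt_or_ge i 6956 with h0 | h0
  · exact chunkF 6899 57 (by norm_num) full9 f9_c80 i (by omega) (by omega)
  rcases Nat.lt_or_ge i 7041 with h1 | h1
  · exact chunkF 6956 85 (by norm_num) full9 f9_c81 i (by omega) (by omega)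
  rcases Nat.lt_or_ge i 7130 with h2 | h2
  · exact chunkF 7041 89 (by norm_num) full9 f9_c82 i (by omega) (by omega)
  rcases Nat.lt_or_ge i 7226 with h3 | h3
  · exact chunkF 7130 96 (by norm_num) full9 f9_c83 i (by omega) (by omega)
  rcases Nat.lt_or_ge i 7322 with h4 | h4
  · exact chunkF 7226 96 (by norm_num) full9 f9_c84 i (by omega) (by omega)
  rcases Nat.lt_or_ge i 7382 with h5 | h5
  · exact chunkF 7322 60 (by norm_num) full9 f9_c85 i (by omega) (by omega)
  rcases Nat.lt_or_ge i 7454 with h6 | h6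
  · exact chunkF 7382 72 (by norm_num) full9 f9_c86 i (by omega) (by omega)
  rcases Nat.lt_or_ge i 7540 with h7 | h7
  · exact chunkF 7454 86 (by norm_num) full9 f9_c87 i (by omega) (by omega)
  rcases Nat.lt_or_ge i 7613 with h8 | h8
  · exact chunkF 7540 73 (by norm_num) full9 f9_c88 i (by omega) (by omega)
  rcases Nat.lt_or_ge i 7676 with h9 | h9
  · exact chunkF 7613 63 (by norm_num) full9 f9_c89 i (by omega) (by omega)
  rcases Nat.lt_or_ge i 7735 with h10 | h10
  · exact chunkF 7676 59 (by norm_num) full9 f9_c90 i (by omega) (by omega)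
  rcases Nat.lt_or_ge i 7817 with h11 | h11
  · exact chunkF 7735 82 (by norm_num) full9 f9_c91 i (by omega) (by omega)
  rcases Nat.lt_or_ge i 7898 with h12 | h12
  · exact chunkF 7817 81 (by norm_num) full9 f9_c92 i (by omega) (by omega)
  rcases Nat.lt_or_ge i 7954 with h13 | h13
  · exact chunkF 7898 56 (by norm_num) full9 f9_c93 i (by omega) (by omega)
  rcases Nat.lt_or_ge i 8024 with h14 | h14
  · exact chunkF 7954 70 (by norm_num) full9 f9_c94 i (by omega) (by omega)
  rcases Nat.lt_or_ge i 8088 with h15 | h15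
  · exact chunkF 8024 64 (by norm_num) full9 f9_c95 i (by omega) (by omega)
  rcases Nat.lt_or_ge i 8161 with h16 | h16
  · exact chunkF 8088 73 (by norm_num) full9 f9_c96 i (by omega) (by omega)
  rcases Nat.lt_or_ge i 8229 with h17 | h17
  · exact chunkF 8161 68 (by norm_num) full9 f9_c97 i (by omega) (by omega)
  rcases Nat.lt_or_ge i 8306 with h18 | h18
  · exact chunkF 8229 77 (by norm_num) full9 f9_c98 i (by omega) (by omega)
  rcases Nat.lt_or_ge i 8384 with h19 | h19
  · exact chunkF 8306 78 (by norm_num) full9 f9_c99 i (by omega) (by omega)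
  rcases Nat.lt_or_ge i 8457 with h20 | h20
  · exact chunkF 8384 73 (by norm_num) full9 f9_c100 i (by omega) (by omega)
  rcases Nat.lt_or_ge i 8539 with h21 | h21
  · exact chunkF 8457 82 (by norm_num) full9 f9_c101 i (by omega) (by omega)
  rcases Nat.lt_or_ge i 8658 with h22 | h22
  · exact chunkF 8539 119 (by norm_num) full9 f9_c102 i (by omega) (by omega)
  rcases Nat.lt_or_ge i 8743 with h23 | h23
  · exact chunkF 8658 85 (by norm_num) full9 f9_c103 i (by omega) (by omega)
  rcases Nat.lt_or_ge i 8855 with h24 | h24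
  · exact chunkF 8743 112 (by norm_num) full9 f9_c104 i (by omega) (by omega)
  rcases Nat.lt_or_ge i 8944 with h25 | h25
  · exact chunkF 8855 89 (by norm_num) full9 f9_c105 i (by omega) (by omega)
  rcases Nat.lt_or_ge i 9040 with h26 | h26
  · exact chunkF 8944 96 (by norm_num) full9 f9_c106 i (by omega) (by omega)
  rcases Nat.lt_or_ge i 9131 with h27 | h27
  · exact chunkF 9040 91 (by norm_num) full9 f9_c107 i (by omega) (by omega)
  rcases Nat.lt_or_ge i 9185 with h28 | h28
  · exact chunkF 9131 54 (by norm_num) full9 f9_c108 i (by omega) (by omega)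
  rcases Nat.lt_or_ge i 9250 with h29 | h29
  · exact chunkF 9185 65 (by norm_num) full9 f9_c109 i (by omega) (by omega)
  rcases Nat.lt_or_ge i 9338 with h30 | h30
  · exact chunkF 9250 88 (by norm_num) full9 f9_c110 i (by omega) (by omega)
  rcases Nat.lt_or_ge i 9438 with h31 | h31
  · exact chunkF 9338 100 (by norm_num) full9 f9_c111 i (by omega) (by omega)
  rcases Nat.lt_or_ge i 9541 with h32 | h32
  · exact chunkF 9438 103 (by norm_num) full9 f9_c112 i (by omega) (by omega)
  rcases Nat.lt_or_ge i 9646 with h33 | h33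
  · exact chunkF 9541 105 (by norm_num) full9 f9_c113 i (by omega) (by omega)
  rcases Nat.lt_or_ge i 9739 with h34 | h34
  · exact chunkF 9646 93 (by norm_num) full9 f9_c114 i (by omega) (by omega)
  rcases Nat.lt_or_ge i 9801 with h35 | h35
  · exact chunkF 9739 62 (by norm_num) full9 f9_c115 i (by omega) (by omega)
  rcases Nat.lt_or_ge i 9879 with h36 | h36
  · exact chunkF 9801 78 (by norm_num) full9 f9_c116 i (by omega) (by omega)
  rcases Nat.lt_or_ge i 9981 with h37 | h37
  · exact chunkF 9879 102 (by norm_num) full9 f9_c117 i (by omega) (by omega)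
  rcases Nat.lt_or_ge i 10057 with h38 | h38
  · exact chunkF 9981 76 (by norm_num) full9 f9_c118 i (by omega) (by omega)
  exact chunkF 10057 51 (by norm_num) full9 f9_c119 i (by omega) (by omega)

end Pool.Agent.TW4.So
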