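import Pool.Agent.TW4.So.Data.F9_3a
import Pool.Agent.TW4.So.Data.F9_3b
import Pool.Agent.TW4.So.Data.F9_3c
import Pool.Agent.TW4.So.Data.F9_3d
import Pool.Agent.TW4.So.Data.F9_3e

namespace Pool.Agent.TW4.So

open Pool.Agent.TW4 Pool.Agent.TW4.Sm

theorem allF9_3 : ∀ i, 10108 ≤ i → i < 13173 → QF 9 (ent 9 F9 A9 i) := by
  intro i hl hi
  rcases Nat.lt_or_ge i 10167 with h0 | h0
  · exact chunkF 10108 59 (by norm_num) full9 f9_c120 i (by omega) (by omega)
  rcases Nat.lt_or_ge i 10238 with h1 | h1
  · exact chunkF 10167 71 (by norm_num) full9 f9_c121 i (by omega) (by omega)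
  rcases Nat.lt_or_ge i 10310 with h2 | h2
  · exact chunkF 10238 72 (by norm_num) full9 f9_c122 i (by omega) (by omega)
  rcases Nat.lt_or_ge i 10363 with h3 | h3
  · exact chunkF 10310 53 (by norm_num) full9 f9_c123 i (by omega) (by omega)
  rcases Nat.lt_or_ge i 10435 with h4 | h4
  · exact chunkF 10363 72 (by norm_num) full9 f9_c124 i (by omega) (by omega)
  rcases Nat.lt_or_ge i 10506 with h5 | h5
  · exact chunkF 10435 71 (by norm_num) full9 f9_c125 i (by omega) (by omega)
  rcases Nat.lt_or_ge i 10573 with h6 | h6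
  · exact chunkF 10506 67 (by norm_num) full9 f9_c126 i (by omega) (by omega)
  rcases Nat.lt_or_ge i 10669 with h7 | h7
  · exact chunkF 10573 96 (by norm_num) full9 f9_c127 i (by omega) (by omega)
  rcases Nat.lt_or_ge i 10764 with h8 | h8
  · exact chunkF 10669 95 (by norm_num) full9 f9_c128 i (by omega) (by omega)
  rcases Nat.lt_or_ge i 10872 with h9 | h9
  · exact chunkF 10764 108 (by norm_num) full9 f9_c129 i (by omega) (by omega)
  rcases Nat.lt_or_ge i 10971 with h10 | h10
  · exact chunkF 10872 99 (by norm_num) full9 f9_c130 i (by omega) (by omega)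
  rcases Nat.lt_or_ge i 11062 with h11 | h11
  · exact chunkF 10971 91 (by norm_num) full9 f9_c131 i (by omega) (by omega)
  rcases Nat.lt_or_ge i 11127 with h12 | h12
  · exact chunkF 11062 65 (by norm_num) full9 f9_c132 i (by omega) (by omega)
  rcases Nat.lt_or_ge i 11197 with h13 | h13
  · exact chunkF 11127 70 (by norm_num) full9 f9_c133 i (by omega) (by omega)
  rcases Nat.lt_or_ge i 11296 with h14 | h14
  · exact chunkF 11197 99 (by norm_num) full9 f9_c134 i (by omega) (by omega)
  rcases Nat.lt_or_ge i 11396 with h15 | h15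
  · exact chunkF 11296 100 (by norm_num) full9 f9_c135 i (by omega) (by omega)
  rcases Nat.lt_or_ge i 11468 with h16 | h16
  · exact chunkF 11396 72 (by norm_num) full9 f9_c136 i (by omega) (by omega)
  rcases Nat.lt_or_ge i 11543 with h17 | h17
  · exact chunkF 11468 75 (by norm_num) full9 f9_c137 i (by omega) (by omega)
  rcases Nat.lt_or_ge i 11616 with h18 | h18
  · exact chunkF 11543 73 (by norm_num) full9 f9_c138 i (by omega) (by omega)
  rcases Nat.lt_or_ge i 11681 with h19 | h19
  · exact chunkF 11616 65 (by norm_num) full9 f9_c139 i (by omega) (by omega)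
  rcases Nat.lt_or_ge i 11749 with h20 | h20
  · exact chunkF 11681 68 (by norm_num) full9 f9_c140 i (by omega) (by omega)
  rcases Nat.lt_or_ge i 11802 with h21 | h21
  · exact chunkF 11749 53 (by norm_num) full9 f9_c141 i (by omega) (by omega)
  rcases Nat.lt_or_ge i 11878 with h22 | h22
  · exact chunkF 11802 76 (by norm_num) full9 f9_c142 i (by omega) (by omega)
  rcases Nat.lt_or_ge i 11958 with h23 | h23
  · exact chunkF 11878 80 (by norm_num) full9 f9_c143 i (by omega) (by omega)
  rcases Nat.lt_or_ge i 12056 with h24 | h24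
  · exact chunkF 11958 98 (by norm_num) full9 f9_c144 i (by omega) (by omega)
  rcases Nat.lt_or_ge i 12159 with h25 | h25
  · exact chunkF 12056 103 (by norm_num) full9 f9_c145 i (by omega) (by omega)
  rcases Nat.lt_or_ge i 12220 with h26 | h26
  · exact chunkF 12159 61 (by norm_num) full9 f9_c146 i (by omega) (by omega)
  rcases Nat.lt_or_ge i 12278 with h27 | h27
  · exact chunkF 12220 58 (by norm_num) full9 f9_c147 i (by omega) (by omega)
  rcases Nat.lt_or_ge i 12339 with h28 | h28
  · exact chunkF 12278 61 (by norm_num) full9 f9_c148 i (by omega) (by omega)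
  rcases Nat.lt_or_ge i 12418 with h29 | h29
  · exact chunkF 12339 79 (by norm_num) full9 f9_c149 i (by omega) (by omega)
  rcases Nat.lt_or_ge i 12495 with h30 | h30
  · exact chunkF 12418 77 (by norm_num) full9 f9_c150 i (by omega) (by omega)
  rcases Nat.lt_or_ge i 12554 with h31 | h31
  · exact chunkF 12495 59 (by norm_num) full9 f9_c151 i (by omega) (by omega)
  rcases Nat.lt_or_ge i 12640 with h32 | h32
  · exact chunkF 12554 86 (by norm_num) full9 f9_c152 i (by omega) (by omega)
  rcases Nat.lt_or_ge i 12717 with h33 | h33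
  · exact chunkF 12640 77 (by norm_num) full9 f9_c153 i (by omega) (by omega)
  rcases Nat.lt_or_ge i 12787 with h34 | h34
  · exact chunkF 12717 70 (by norm_num) full9 f9_c154 i (by omega) (by omega)
  rcases Nat.lt_or_ge i 12865 with h35 | h35
  · exact chunkF 12787 78 (by norm_num) full9 f9_c155 i (by omega) (by omega)
  rcases Nat.lt_or_ge i 12939 with h36 | h36
  · exact chunkF 12865 74 (by norm_num) full9 f9_c156 i (by omega) (by omega)
  rcases Nat.lt_or_ge i 13021 with h37 | h37
  · exact chunkF 12939 82 (by norm_num) full9 f9_c157 i (by omega) (by omega)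
  rcases Nat.lt_or_ge i 13105 with h38 | h38
  · exact chunkF 13021 84 (by norm_num) full9 f9_c158 i (by omega) (by omega)
  exact chunkF 13105 68 (by norm_num) full9 f9_c159 i (by omega) (by omega)

end Pool.Agent.TW4.So
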