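import Pool.Agent.TW4.So.Data.F9_4a
import Pool.Agent.TW4.So.Data.F9_4b
import Pool.Agent.TW4.So.Data.F9_4c
import Pool.Agent.TW4.So.Data.F9_4d
import Pool.Agent.TW4.So.Data.F9_4e

namespace Pool.Agent.TW4.So

open Pool.Agent.TW4 Pool.Agent.TW4.Sm

theorem allF9_4 : ∀ i, 13173 ≤ i → i < 16250 → QF 9 (ent 9 F9 A9 i) := by
  intro i hl hi
  rcases Nat.lt_or_ge i 13255 with h0 | h0
  · exact chunkF 13173 82 (by norm_num) full9 f9_c160 i (by omega) (by omega)
  rcases Nat.lt_or_ge i 13324 with h1 | h1
  · exact chunkF 13255 69 (by norm_num) full9 f9_c161 i (by omega) (by omega)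
  rcases Nat.lt_or_ge i 13426 with h2 | h2
  · exact chunkF 13324 102 (by norm_num) full9 f9_c162 i (by omega) (by omega)
  rcases Nat.lt_or_ge i 13515 with h3 | h3
  · exact chunkF 13426 89 (by norm_num) full9 f9_c163 i (by omega) (by omega)
  rcases Nat.lt_or_ge i 13604 with h4 | h4
  · exact chunkF 13515 89 (by norm_num) full9 f9_c164 i (by omega) (by omega)
  rcases Nat.lt_or_ge i 13694 with h5 | h5
  · exact chunkF 13604 90 (by norm_num) full9 f9_c165 i (by omega) (by omega)
  rcases Nat.lt_or_ge i 13763 with h6 | h6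
  · exact chunkF 13694 69 (by norm_num) full9 f9_c166 i (by omega) (by omega)
  rcases Nat.lt_or_ge i 13835 with h7 | h7
  · exact chunkF 13763 72 (by norm_num) full9 f9_c167 i (by omega) (by omega)
  rcases Nat.lt_or_ge i 13939 with h8 | h8
  · exact chunkF 13835 104 (by norm_num) full9 f9_c168 i (by omega) (by omega)
  rcases Nat.lt_or_ge i 14040 with h9 | h9
  · exact chunkF 13939 101 (by norm_num) full9 f9_c169 i (by omega) (by omega)
  rcases Nat.lt_or_ge i 14111 with h10 | h10
  · exact chunkF 14040 71 (by norm_num) full9 f9_c170 i (by omega) (by omega)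
  rcases Nat.lt_or_ge i 14176 with h11 | h11
  · exact chunkF 14111 65 (by norm_num) full9 f9_c171 i (by omega) (by omega)
  rcases Nat.lt_or_ge i 14263 with h12 | h12
  · exact chunkF 14176 87 (by norm_num) full9 f9_c172 i (by omega) (by omega)
  rcases Nat.lt_or_ge i 14331 with h13 | h13
  · exact chunkF 14263 68 (by norm_num) full9 f9_c173 i (by omega) (by omega)
  rcases Nat.lt_or_ge i 14400 with h14 | h14
  · exact chunkF 14331 69 (by norm_num) full9 f9_c174 i (by omega) (by omega)
  rcases Nat.lt_or_ge i 14453 with h15 | h15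
  · exact chunkF 14400 53 (by norm_num) full9 f9_c175 i (by omega) (by omega)
  rcases Nat.lt_or_ge i 14539 with h16 | h16
  · exact chunkF 14453 86 (by norm_num) full9 f9_c176 i (by omega) (by omega)
  rcases Nat.lt_or_ge i 14644 with h17 | h17
  · exact chunkF 14539 105 (by norm_num) full9 f9_c177 i (by omega) (by omega)
  rcases Nat.lt_or_ge i 14736 with h18 | h18
  · exact chunkF 14644 92 (by norm_num) full9 f9_c178 i (by omega) (by omega)
  rcases Nat.lt_or_ge i 14816 with h19 | h19
  · exact chunkF 14736 80 (by norm_num) full9 f9_c179 i (by omega) (by omega)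
  rcases Nat.lt_or_ge i 14865 with h20 | h20
  · exact chunkF 14816 49 (by norm_num) full9 f9_c180 i (by omega) (by omega)
  rcases Nat.lt_or_ge i 14919 with h21 | h21
  · exact chunkF 14865 54 (by norm_num) full9 f9_c181 i (by omega) (by omega)
  rcases Nat.lt_or_ge i 14995 with h22 | h22
  · exact chunkF 14919 76 (by norm_num) full9 f9_c182 i (by omega) (by omega)
  rcases Nat.lt_or_ge i 15064 with h23 | h23
  · exact chunkF 14995 69 (by norm_num) full9 f9_c183 i (by omega) (by omega)
  rcases Nat.lt_or_ge i 15137 with h24 | h24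
  · exact chunkF 15064 73 (by norm_num) full9 f9_c184 i (by omega) (by omega)
  rcases Nat.lt_or_ge i 15202 with h25 | h25
  · exact chunkF 15137 65 (by norm_num) full9 f9_c185 i (by omega) (by omega)
  rcases Nat.lt_or_ge i 15274 with h26 | h26
  · exact chunkF 15202 72 (by norm_num) full9 f9_c186 i (by omega) (by omega)
  rcases Nat.lt_or_ge i 15348 with h27 | h27
  · exact chunkF 15274 74 (by norm_num) full9 f9_c187 i (by omega) (by omega)
  rcases Nat.lt_or_ge i 15423 with h28 | h28
  · exact chunkF 15348 75 (by norm_num) full9 f9_c188 i (by omega) (by omega)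
  rcases Nat.lt_or_ge i 15475 with h29 | h29
  · exact chunkF 15423 52 (by norm_num) full9 f9_c189 i (by omega) (by omega)
  rcases Nat.lt_or_ge i 15533 with h30 | h30
  · exact chunkF 15475 58 (by norm_num) full9 f9_c190 i (by omega) (by omega)
  rcases Nat.lt_or_ge i 15630 with h31 | h31
  · exact chunkF 15533 97 (by norm_num) full9 f9_c191 i (by omega) (by omega)
  rcases Nat.lt_or_ge i 15698 with h32 | h32
  · exact chunkF 15630 68 (by norm_num) full9 f9_c192 i (by omega) (by omega)
  rcases Nat.lt_or_ge i 15786 with h33 | h33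
  · exact chunkF 15698 88 (by norm_num) full9 f9_c193 i (by omega) (by omega)
  rcases Nat.lt_or_ge i 15854 with h34 | h34
  · exact chunkF 15786 68 (by norm_num) full9 f9_c194 i (by omega) (by omega)
  rcases Nat.lt_or_ge i 15935 with h35 | h35
  · exact chunkF 15854 81 (by norm_num) full9 f9_c195 i (by omega) (by omega)
  rcases Nat.lt_or_ge i 16010 with h36 | h36
  · exact chunkF 15935 75 (by norm_num) full9 f9_c196 i (by omega) (by omega)
  rcases Nat.lt_or_ge i 16109 with h37 | h37
  · exact chunkF 16010 99 (by norm_num) full9 f9_c197 i (by omega) (by omega)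
  rcases Nat.lt_or_ge i 16193 with h38 | h38
  · exact chunkF 16109 84 (by norm_num) full9 f9_c198 i (by omega) (by omega)
  exact chunkF 16193 57 (by norm_num) full9 f9_c199 i (by omega) (by omega)

end Pool.Agent.TW4.So
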