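import Pool.Agent.TW4.So.Data.F9_5a
import Pool.Agent.TW4.So.Data.F9_5b
import Pool.Agent.TW4.So.Data.F9_5c
import Pool.Agent.TW4.So.Data.F9_5d
import Pool.Agent.TW4.So.Data.F9_5e

namespace Pool.Agent.TW4.So

open Pool.Agent.TW4 Pool.Agent.TW4.Sm

theorem allF9_5 : ∀ i, 16250 ≤ i → i < 19530 → QF 9 (ent 9 F9 A9 i) := by
  intro i hl hi
  rcases Nat.lt_or_ge i 16314 with h0 | h0
  · exact chunkF 16250 64 (by norm_num) full9 f9_c200 i (by omega) (by omega)
  rcases Nat.lt_or_ge i 16384 with h1 | h1
  · exact chunkF 16314 70 (by norm_num) full9 f9_c201 i (by omega) (by omega)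
  rcases Nat.lt_or_ge i 16447 with h2 | h2
  · exact chunkF 16384 63 (by norm_num) full9 f9_c202 i (by omega) (by omega)
  rcases Nat.lt_or_ge i 16511 with h3 | h3
  · exact chunkF 16447 64 (by norm_num) full9 f9_c203 i (by omega) (by omega)
  rcases Nat.lt_or_ge i 16596 with h4 | h4
  · exact chunkF 16511 85 (by norm_num) full9 f9_c204 i (by omega) (by omega)
  rcases Nat.lt_or_ge i 16679 with h5 | h5
  · exact chunkF 16596 83 (by norm_num) full9 f9_c205 i (by omega) (by omega)
  rcases Nat.lt_or_ge i 16763 with h6 | h6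
  · exact chunkF 16679 84 (by norm_num) full9 f9_c206 i (by omega) (by omega)
  rcases Nat.lt_or_ge i 16835 with h7 | h7
  · exact chunkF 16763 72 (by norm_num) full9 f9_c207 i (by omega) (by omega)
  rcases Nat.lt_or_ge i 16889 with h8 | h8
  · exact chunkF 16835 54 (by norm_num) full9 f9_c208 i (by omega) (by omega)
  rcases Nat.lt_or_ge i 16952 with h9 | h9
  · exact chunkF 16889 63 (by norm_num) full9 f9_c209 i (by omega) (by omega)
  rcases Nat.lt_or_ge i 17039 with h10 | h10
  · exact chunkF 16952 87 (by norm_num) full9 f9_c210 i (by omega) (by omega)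
  rcases Nat.lt_or_ge i 17122 with h11 | h11
  · exact chunkF 17039 83 (by norm_num) full9 f9_c211 i (by omega) (by omega)
  rcases Nat.lt_or_ge i 17200 with h12 | h12
  · exact chunkF 17122 78 (by norm_num) full9 f9_c212 i (by omega) (by omega)
  rcases Nat.lt_or_ge i 17287 with h13 | h13
  · exact chunkF 17200 87 (by norm_num) full9 f9_c213 i (by omega) (by omega)
  rcases Nat.lt_or_ge i 17364 with h14 | h14
  · exact chunkF 17287 77 (by norm_num) full9 f9_c214 i (by omega) (by omega)
  rcases Nat.lt_or_ge i 17456 with h15 | h15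
  · exact chunkF 17364 92 (by norm_num) full9 f9_c215 i (by omega) (by omega)
  rcases Nat.lt_or_ge i 17531 with h16 | h16
  · exact chunkF 17456 75 (by norm_num) full9 f9_c216 i (by omega) (by omega)
  rcases Nat.lt_or_ge i 17608 with h17 | h17
  · exact chunkF 17531 77 (by norm_num) full9 f9_c217 i (by omega) (by omega)
  rcases Nat.lt_or_ge i 17670 with h18 | h18
  · exact chunkF 17608 62 (by norm_num) full9 f9_c218 i (by omega) (by omega)
  rcases Nat.lt_or_ge i 17747 with h19 | h19
  · exact chunkF 17670 77 (by norm_num) full9 f9_c219 i (by omega) (by omega)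
  rcases Nat.lt_or_ge i 17832 with h20 | h20
  · exact chunkF 17747 85 (by norm_num) full9 f9_c220 i (by omega) (by omega)
  rcases Nat.lt_or_ge i 17904 with h21 | h21
  · exact chunkF 17832 72 (by norm_num) full9 f9_c221 i (by omega) (by omega)
  rcases Nat.lt_or_ge i 17993 with h22 | h22
  · exact chunkF 17904 89 (by norm_num) full9 f9_c222 i (by omega) (by omega)
  rcases Nat.lt_or_ge i 18071 with h23 | h23
  · exact chunkF 17993 78 (by norm_num) full9 f9_c223 i (by omega) (by omega)
  rcases Nat.lt_or_ge i 18151 with h24 | h24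
  · exact chunkF 18071 80 (by norm_num) full9 f9_c224 i (by omega) (by omega)
  rcases Nat.lt_or_ge i 18217 with h25 | h25
  · exact chunkF 18151 66 (by norm_num) full9 f9_c225 i (by omega) (by omega)
  rcases Nat.lt_or_ge i 18296 with h26 | h26
  · exact chunkF 18217 79 (by norm_num) full9 f9_c226 i (by omega) (by omega)
  rcases Nat.lt_or_ge i 18371 with h27 | h27
  · exact chunkF 18296 75 (by norm_num) full9 f9_c227 i (by omega) (by omega)
  rcases Nat.lt_or_ge i 18449 with h28 | h28
  · exact chunkF 18371 78 (by norm_num) full9 f9_c228 i (by omega) (by omega)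
  rcases Nat.lt_or_ge i 18557 with h29 | h29
  · exact chunkF 18449 108 (by norm_num) full9 f9_c229 i (by omega) (by omega)
  rcases Nat.lt_or_ge i 18683 with h30 | h30
  · exact chunkF 18557 126 (by norm_num) full9 f9_c230 i (by omega) (by omega)
  rcases Nat.lt_or_ge i 18782 with h31 | h31
  · exact chunkF 18683 99 (by norm_num) full9 f9_c231 i (by omega) (by omega)
  rcases Nat.lt_or_ge i 18883 with h32 | h32
  · exact chunkF 18782 101 (by norm_num) full9 f9_c232 i (by omega) (by omega)
  rcases Nat.lt_or_ge i 18990 with h33 | h33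
  · exact chunkF 18883 107 (by norm_num) full9 f9_c233 i (by omega) (by omega)
  rcases Nat.lt_or_ge i 19092 with h34 | h34
  · exact chunkF 18990 102 (by norm_num) full9 f9_c234 i (by omega) (by omega)
  rcases Nat.lt_or_ge i 19195 with h35 | h35
  · exact chunkF 19092 103 (by norm_num) full9 f9_c235 i (by omega) (by omega)
  rcases Nat.lt_or_ge i 19306 with h36 | h36
  · exact chunkF 19195 111 (by norm_num) full9 f9_c236 i (by omega) (by omega)
  rcases Nat.lt_or_ge i 19387 with h37 | h37
  · exact chunkF 19306 81 (by norm_num) full9 f9_c237 i (by omega) (by omega)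
  rcases Nat.lt_or_ge i 19462 with h38 | h38
  · exact chunkF 19387 75 (by norm_num) full9 f9_c238 i (by omega) (by omega)
  exact chunkF 19462 68 (by norm_num) full9 f9_c239 i (by omega) (by omega)

end Pool.Agent.TW4.So
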