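import Pool.Agent.TW4.So.Data.F9_6a
import Pool.Agent.TW4.So.Data.F9_6b
import Pool.Agent.TW4.So.Data.F9_6c
import Pool.Agent.TW4.So.Data.F9_6d
import Pool.Agent.TW4.So.Data.F9_6e

namespace Pool.Agent.TW4.So

open Pool.Agent.TW4 Pool.Agent.TW4.Sm

theorem allF9_6 : ∀ i, 19530 ≤ i → i < 22783 → QF 9 (ent 9 F9 A9 i) := by
  intro i hl hi
  rcases Nat.lt_or_ge i 19620 with h0 | h0
  · exact chunkF 19530 90 (by norm_num) full9 f9_c240 i (by omega) (by omega)
  rcases Nat.lt_or_ge i 19719 with h1 | h1
  · exact chunkF 19620 99 (by norm_num) full9 f9_c241 i (by omega) (by omega)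
  rcases Nat.lt_or_ge i 19817 with h2 | h2
  · exact chunkF 19719 98 (by norm_num) full9 f9_c242 i (by omega) (by omega)
  rcases Nat.lt_or_ge i 19928 with h3 | h3
  · exact chunkF 19817 111 (by norm_num) full9 f9_c243 i (by omega) (by omega)
  rcases Nat.lt_or_ge i 20033 with h4 | h4
  · exact chunkF 19928 105 (by norm_num) full9 f9_c244 i (by omega) (by omega)
  rcases Nat.lt_or_ge i 20112 with h5 | h5
  · exact chunkF 20033 79 (by norm_num) full9 f9_c245 i (by omega) (by omega)
  rcases Nat.lt_or_ge i 20169 with h6 | h6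
  · exact chunkF 20112 57 (by norm_num) full9 f9_c246 i (by omega) (by omega)
  rcases Nat.lt_or_ge i 20267 with h7 | h7
  · exact chunkF 20169 98 (by norm_num) full9 f9_c247 i (by omega) (by omega)
  rcases Nat.lt_or_ge i 20363 with h8 | h8
  · exact chunkF 20267 96 (by norm_num) full9 f9_c248 i (by omega) (by omega)
  rcases Nat.lt_or_ge i 20453 with h9 | h9
  · exact chunkF 20363 90 (by norm_num) full9 f9_c249 i (by omega) (by omega)
  rcases Nat.lt_or_ge i 20516 with h10 | h10
  · exact chunkF 20453 63 (by norm_num) full9 f9_c250 i (by omega) (by omega)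
  rcases Nat.lt_or_ge i 20578 with h11 | h11
  · exact chunkF 20516 62 (by norm_num) full9 f9_c251 i (by omega) (by omega)
  rcases Nat.lt_or_ge i 20659 with h12 | h12
  · exact chunkF 20578 81 (by norm_num) full9 f9_c252 i (by omega) (by omega)
  rcases Nat.lt_or_ge i 20727 with h13 | h13
  · exact chunkF 20659 68 (by norm_num) full9 f9_c253 i (by omega) (by omega)
  rcases Nat.lt_or_ge i 20803 with h14 | h14
  · exact chunkF 20727 76 (by norm_num) full9 f9_c254 i (by omega) (by omega)
  rcases Nat.lt_or_ge i 20870 with h15 | h15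
  · exact chunkF 20803 67 (by norm_num) full9 f9_c255 i (by omega) (by omega)
  rcases Nat.lt_or_ge i 20962 with h16 | h16
  · exact chunkF 20870 92 (by norm_num) full9 f9_c256 i (by omega) (by omega)
  rcases Nat.lt_or_ge i 21063 with h17 | h17
  · exact chunkF 20962 101 (by norm_num) full9 f9_c257 i (by omega) (by omega)
  rcases Nat.lt_or_ge i 21161 with h18 | h18
  · exact chunkF 21063 98 (by norm_num) full9 f9_c258 i (by omega) (by omega)
  rcases Nat.lt_or_ge i 21241 with h19 | h19
  · exact chunkF 21161 80 (by norm_num) full9 f9_c259 i (by omega) (by omega)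
  rcases Nat.lt_or_ge i 21343 with h20 | h20
  · exact chunkF 21241 102 (by norm_num) full9 f9_c260 i (by omega) (by omega)
  rcases Nat.lt_or_ge i 21399 with h21 | h21
  · exact chunkF 21343 56 (by norm_num) full9 f9_c261 i (by omega) (by omega)
  rcases Nat.lt_or_ge i 21458 with h22 | h22
  · exact chunkF 21399 59 (by norm_num) full9 f9_c262 i (by omega) (by omega)
  rcases Nat.lt_or_ge i 21537 with h23 | h23
  · exact chunkF 21458 79 (by norm_num) full9 f9_c263 i (by omega) (by omega)
  rcases Nat.lt_or_ge i 21615 with h24 | h24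
  · exact chunkF 21537 78 (by norm_num) full9 f9_c264 i (by omega) (by omega)
  rcases Nat.lt_or_ge i 21722 with h25 | h25
  · exact chunkF 21615 107 (by norm_num) full9 f9_c265 i (by omega) (by omega)
  rcases Nat.lt_or_ge i 21796 with h26 | h26
  · exact chunkF 21722 74 (by norm_num) full9 f9_c266 i (by omega) (by omega)
  rcases Nat.lt_or_ge i 21864 with h27 | h27
  · exact chunkF 21796 68 (by norm_num) full9 f9_c267 i (by omega) (by omega)
  rcases Nat.lt_or_ge i 21933 with h28 | h28
  · exact chunkF 21864 69 (by norm_num) full9 f9_c268 i (by omega) (by omega)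
  rcases Nat.lt_or_ge i 22018 with h29 | h29
  · exact chunkF 21933 85 (by norm_num) full9 f9_c269 i (by omega) (by omega)
  rcases Nat.lt_or_ge i 22084 with h30 | h30
  · exact chunkF 22018 66 (by norm_num) full9 f9_c270 i (by omega) (by omega)
  rcases Nat.lt_or_ge i 22150 with h31 | h31
  · exact chunkF 22084 66 (by norm_num) full9 f9_c271 i (by omega) (by omega)
  rcases Nat.lt_or_ge i 22233 with h32 | h32
  · exact chunkF 22150 83 (by norm_num) full9 f9_c272 i (by omega) (by omega)
  rcases Nat.lt_or_ge i 22311 with h33 | h33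
  · exact chunkF 22233 78 (by norm_num) full9 f9_c273 i (by omega) (by omega)
  rcases Nat.lt_or_ge i 22410 with h34 | h34
  · exact chunkF 22311 99 (by norm_num) full9 f9_c274 i (by omega) (by omega)
  rcases Nat.lt_or_ge i 22500 with h35 | h35
  · exact chunkF 22410 90 (by norm_num) full9 f9_c275 i (by omega) (by omega)
  rcases Nat.lt_or_ge i 22565 with h36 | h36
  · exact chunkF 22500 65 (by norm_num) full9 f9_c276 i (by omega) (by omega)
  rcases Nat.lt_or_ge i 22649 with h37 | h37
  · exact chunkF 22565 84 (by norm_num) full9 f9_c277 i (by omega) (by omega)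
  rcases Nat.lt_or_ge i 22721 with h38 | h38
  · exact chunkF 22649 72 (by norm_num) full9 f9_c278 i (by omega) (by omega)
  exact chunkF 22721 62 (by norm_num) full9 f9_c279 i (by omega) (by omega)

end Pool.Agent.TW4.So
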