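import Pool.Agent.TW4.So.Data.F9_7a
import Pool.Agent.TW4.So.Data.F9_7b
import Pool.Agent.TW4.So.Data.F9_7c
import Pool.Agent.TW4.So.Data.F9_7d
import Pool.Agent.TW4.So.Data.F9_7e

namespace Pool.Agent.TW4.So

open Pool.Agent.TW4 Pool.Agent.TW4.Sm

theorem allF9_7 : ∀ i, 22783 ≤ i → i < 25862 → QF 9 (ent 9 F9 A9 i) := by
  intro i hl hi
  rcases Nat.lt_or_ge i 22866 with h0 | h0
  · exact chunkF 22783 83 (by norm_num) full9 f9_c280 i (by omega) (by omega)
  rcases Nat.lt_or_ge i 22945 with h1 | h1
  · exact chunkF 22866 79 (by norm_num) full9 f9_c281 i (by omega) (by omega)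
  rcases Nat.lt_or_ge i 23014 with h2 | h2
  · exact chunkF 22945 69 (by norm_num) full9 f9_c282 i (by omega) (by omega)
  rcases Nat.lt_or_ge i 23089 with h3 | h3
  · exact chunkF 23014 75 (by norm_num) full9 f9_c283 i (by omega) (by omega)
  rcases Nat.lt_or_ge i 23161 with h4 | h4
  · exact chunkF 23089 72 (by norm_num) full9 f9_c284 i (by omega) (by omega)
  rcases Nat.lt_or_ge i 23211 with h5 | h5
  · exact chunkF 23161 50 (by norm_num) full9 f9_c285 i (by omega) (by omega)
  rcases Nat.lt_or_ge i 23298 with h6 | h6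
  · exact chunkF 23211 87 (by norm_num) full9 f9_c286 i (by omega) (by omega)
  rcases Nat.lt_or_ge i 23371 with h7 | h7
  · exact chunkF 23298 73 (by norm_num) full9 f9_c287 i (by omega) (by omega)
  rcases Nat.lt_or_ge i 23447 with h8 | h8
  · exact chunkF 23371 76 (by norm_num) full9 f9_c288 i (by omega) (by omega)
  rcases Nat.lt_or_ge i 23525 with h9 | h9
  · exact chunkF 23447 78 (by norm_num) full9 f9_c289 i (by omega) (by omega)
  rcases Nat.lt_or_ge i 23599 with h10 | h10
  · exact chunkF 23525 74 (by norm_num) full9 f9_c290 i (by omega) (by omega)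
  rcases Nat.lt_or_ge i 23691 with h11 | h11
  · exact chunkF 23599 92 (by norm_num) full9 f9_c291 i (by omega) (by omega)
  rcases Nat.lt_or_ge i 23787 with h12 | h12
  · exact chunkF 23691 96 (by norm_num) full9 f9_c292 i (by omega) (by omega)
  rcases Nat.lt_or_ge i 23895 with h13 | h13
  · exact chunkF 23787 108 (by norm_num) full9 f9_c293 i (by omega) (by omega)
  rcases Nat.lt_or_ge i 23981 with h14 | h14
  · exact chunkF 23895 86 (by norm_num) full9 f9_c294 i (by omega) (by omega)
  rcases Nat.lt_or_ge i 24079 with h15 | h15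
  · exact chunkF 23981 98 (by norm_num) full9 f9_c295 i (by omega) (by omega)
  rcases Nat.lt_or_ge i 24149 with h16 | h16
  · exact chunkF 24079 70 (by norm_num) full9 f9_c296 i (by omega) (by omega)
  rcases Nat.lt_or_ge i 24202 with h17 | h17
  · exact chunkF 24149 53 (by norm_num) full9 f9_c297 i (by omega) (by omega)
  rcases Nat.lt_or_ge i 24288 with h18 | h18
  · exact chunkF 24202 86 (by norm_num) full9 f9_c298 i (by omega) (by omega)
  rcases Nat.lt_or_ge i 24378 with h19 | h19
  · exact chunkF 24288 90 (by norm_num) full9 f9_c299 i (by omega) (by omega)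
  rcases Nat.lt_or_ge i 24474 with h20 | h20
  · exact chunkF 24378 96 (by norm_num) full9 f9_c300 i (by omega) (by omega)
  rcases Nat.lt_or_ge i 24541 with h21 | h21
  · exact chunkF 24474 67 (by norm_num) full9 f9_c301 i (by omega) (by omega)
  rcases Nat.lt_or_ge i 24630 with h22 | h22
  · exact chunkF 24541 89 (by norm_num) full9 f9_c302 i (by omega) (by omega)
  rcases Nat.lt_or_ge i 24704 with h23 | h23
  · exact chunkF 24630 74 (by norm_num) full9 f9_c303 i (by omega) (by omega)
  rcases Nat.lt_or_ge i 24757 with h24 | h24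
  · exact chunkF 24704 53 (by norm_num) full9 f9_c304 i (by omega) (by omega)
  rcases Nat.lt_or_ge i 24818 with h25 | h25
  · exact chunkF 24757 61 (by norm_num) full9 f9_c305 i (by omega) (by omega)
  rcases Nat.lt_or_ge i 24894 with h26 | h26
  · exact chunkF 24818 76 (by norm_num) full9 f9_c306 i (by omega) (by omega)
  rcases Nat.lt_or_ge i 24983 with h27 | h27
  · exact chunkF 24894 89 (by norm_num) full9 f9_c307 i (by omega) (by omega)
  rcases Nat.lt_or_ge i 25087 with h28 | h28
  · exact chunkF 24983 104 (by norm_num) full9 f9_c308 i (by omega) (by omega)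
  rcases Nat.lt_or_ge i 25179 with h29 | h29
  · exact chunkF 25087 92 (by norm_num) full9 f9_c309 i (by omega) (by omega)
  rcases Nat.lt_or_ge i 25254 with h30 | h30
  · exact chunkF 25179 75 (by norm_num) full9 f9_c310 i (by omega) (by omega)
  rcases Nat.lt_or_ge i 25303 with h31 | h31
  · exact chunkF 25254 49 (by norm_num) full9 f9_c311 i (by omega) (by omega)
  rcases Nat.lt_or_ge i 25374 with h32 | h32
  · exact chunkF 25303 71 (by norm_num) full9 f9_c312 i (by omega) (by omega)
  rcases Nat.lt_or_ge i 25441 with h33 | h33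
  · exact chunkF 25374 67 (by norm_num) full9 f9_c313 i (by omega) (by omega)
  rcases Nat.lt_or_ge i 25511 with h34 | h34
  · exact chunkF 25441 70 (by norm_num) full9 f9_c314 i (by omega) (by omega)
  rcases Nat.lt_or_ge i 25579 with h35 | h35
  · exact chunkF 25511 68 (by norm_num) full9 f9_c315 i (by omega) (by omega)
  rcases Nat.lt_or_ge i 25649 with h36 | h36
  · exact chunkF 25579 70 (by norm_num) full9 f9_c316 i (by omega) (by omega)
  rcases Nat.lt_or_ge i 25729 with h37 | h37
  · exact chunkF 25649 80 (by norm_num) full9 f9_c317 i (by omega) (by omega)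
  rcases Nat.lt_or_ge i 25810 with h38 | h38
  · exact chunkF 25729 81 (by norm_num) full9 f9_c318 i (by omega) (by omega)
  exact chunkF 25810 52 (by norm_num) full9 f9_c319 i (by omega) (by omega)

end Pool.Agent.TW4.So
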