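import Pool.Agent.TW4.So.Data.F9_8a
import Pool.Agent.TW4.So.Data.F9_8b
import Pool.Agent.TW4.So.Data.F9_8c
import Pool.Agent.TW4.So.Data.F9_8d
import Pool.Agent.TW4.So.Data.F9_8e

namespace Pool.Agent.TW4.So

open Pool.Agent.TW4 Pool.Agent.TW4.Sm

theorem allF9_8 : ∀ i, 25862 ≤ i → i < 28974 → QF 9 (ent 9 F9 A9 i) := by
  intro i hl hi
  rcases Nat.lt_or_ge i 25930 with h0 | h0
  · exact chunkF 25862 68 (by norm_num) full9 f9_c320 i (by omega) (by omega)
  rcases Nat.lt_or_ge i 25993 with h1 | h1
  · exact chunkF 25930 63 (by norm_num) full9 f9_c321 i (by omega) (by omega)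
  rcases Nat.lt_or_ge i 26082 with h2 | h2
  · exact chunkF 25993 89 (by norm_num) full9 f9_c322 i (by omega) (by omega)
  rcases Nat.lt_or_ge i 26156 with h3 | h3
  · exact chunkF 26082 74 (by norm_num) full9 f9_c323 i (by omega) (by omega)
  rcases Nat.lt_or_ge i 26246 with h4 | h4
  · exact chunkF 26156 90 (by norm_num) full9 f9_c324 i (by omega) (by omega)
  rcases Nat.lt_or_ge i 26338 with h5 | h5
  · exact chunkF 26246 92 (by norm_num) full9 f9_c325 i (by omega) (by omega)
  rcases Nat.lt_or_ge i 26425 with h6 | h6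
  · exact chunkF 26338 87 (by norm_num) full9 f9_c326 i (by omega) (by omega)
  rcases Nat.lt_or_ge i 26521 with h7 | h7
  · exact chunkF 26425 96 (by norm_num) full9 f9_c327 i (by omega) (by omega)
  rcases Nat.lt_or_ge i 26592 with h8 | h8
  · exact chunkF 26521 71 (by norm_num) full9 f9_c328 i (by omega) (by omega)
  rcases Nat.lt_or_ge i 26658 with h9 | h9
  · exact chunkF 26592 66 (by norm_num) full9 f9_c329 i (by omega) (by omega)
  rcases Nat.lt_or_ge i 26738 with h10 | h10
  · exact chunkF 26658 80 (by norm_num) full9 f9_c330 i (by omega) (by omega)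
  rcases Nat.lt_or_ge i 26797 with h11 | h11
  · exact chunkF 26738 59 (by norm_num) full9 f9_c331 i (by omega) (by omega)
  rcases Nat.lt_or_ge i 26859 with h12 | h12
  · exact chunkF 26797 62 (by norm_num) full9 f9_c332 i (by omega) (by omega)
  rcases Nat.lt_or_ge i 26929 with h13 | h13
  · exact chunkF 26859 70 (by norm_num) full9 f9_c333 i (by omega) (by omega)
  rcases Nat.lt_or_ge i 27009 with h14 | h14
  · exact chunkF 26929 80 (by norm_num) full9 f9_c334 i (by omega) (by omega)
  rcases Nat.lt_or_ge i 27075 with h15 | h15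
  · exact chunkF 27009 66 (by norm_num) full9 f9_c335 i (by omega) (by omega)
  rcases Nat.lt_or_ge i 27147 with h16 | h16
  · exact chunkF 27075 72 (by norm_num) full9 f9_c336 i (by omega) (by omega)
  rcases Nat.lt_or_ge i 27216 with h17 | h17
  · exact chunkF 27147 69 (by norm_num) full9 f9_c337 i (by omega) (by omega)
  rcases Nat.lt_or_ge i 27280 with h18 | h18
  · exact chunkF 27216 64 (by norm_num) full9 f9_c338 i (by omega) (by omega)
  rcases Nat.lt_or_ge i 27365 with h19 | h19
  · exact chunkF 27280 85 (by norm_num) full9 f9_c339 i (by omega) (by omega)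
  rcases Nat.lt_or_ge i 27453 with h20 | h20
  · exact chunkF 27365 88 (by norm_num) full9 f9_c340 i (by omega) (by omega)
  rcases Nat.lt_or_ge i 27532 with h21 | h21
  · exact chunkF 27453 79 (by norm_num) full9 f9_c341 i (by omega) (by omega)
  rcases Nat.lt_or_ge i 27593 with h22 | h22
  · exact chunkF 27532 61 (by norm_num) full9 f9_c342 i (by omega) (by omega)
  rcases Nat.lt_or_ge i 27680 with h23 | h23
  · exact chunkF 27593 87 (by norm_num) full9 f9_c343 i (by omega) (by omega)
  rcases Nat.lt_or_ge i 27751 with h24 | h24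
  · exact chunkF 27680 71 (by norm_num) full9 f9_c344 i (by omega) (by omega)
  rcases Nat.lt_or_ge i 27820 with h25 | h25
  · exact chunkF 27751 69 (by norm_num) full9 f9_c345 i (by omega) (by omega)
  rcases Nat.lt_or_ge i 27891 with h26 | h26
  · exact chunkF 27820 71 (by norm_num) full9 f9_c346 i (by omega) (by omega)
  rcases Nat.lt_or_ge i 27959 with h27 | h27
  · exact chunkF 27891 68 (by norm_num) full9 f9_c347 i (by omega) (by omega)
  rcases Nat.lt_or_ge i 28027 with h28 | h28
  · exact chunkF 27959 68 (by norm_num) full9 f9_c348 i (by omega) (by omega)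
  rcases Nat.lt_or_ge i 28106 with h29 | h29
  · exact chunkF 28027 79 (by norm_num) full9 f9_c349 i (by omega) (by omega)
  rcases Nat.lt_or_ge i 28191 with h30 | h30
  · exact chunkF 28106 85 (by norm_num) full9 f9_c350 i (by omega) (by omega)
  rcases Nat.lt_or_ge i 28271 with h31 | h31
  · exact chunkF 28191 80 (by norm_num) full9 f9_c351 i (by omega) (by omega)
  rcases Nat.lt_or_ge i 28359 with h32 | h32
  · exact chunkF 28271 88 (by norm_num) full9 f9_c352 i (by omega) (by omega)
  rcases Nat.lt_or_ge i 28453 with h33 | h33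
  · exact chunkF 28359 94 (by norm_num) full9 f9_c353 i (by omega) (by omega)
  rcases Nat.lt_or_ge i 28528 with h34 | h34
  · exact chunkF 28453 75 (by norm_num) full9 f9_c354 i (by omega) (by omega)
  rcases Nat.lt_or_ge i 28623 with h35 | h35
  · exact chunkF 28528 95 (by norm_num) full9 f9_c355 i (by omega) (by omega)
  rcases Nat.lt_or_ge i 28697 with h36 | h36
  · exact chunkF 28623 74 (by norm_num) full9 f9_c356 i (by omega) (by omega)
  rcases Nat.lt_or_ge i 28768 with h37 | h37
  · exact chunkF 28697 71 (by norm_num) full9 f9_c357 i (by omega) (by omega)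
  rcases Nat.lt_or_ge i 28873 with h38 | h38
  · exact chunkF 28768 105 (by norm_num) full9 f9_c358 i (by omega) (by omega)
  exact chunkF 28873 101 (by norm_num) full9 f9_c359 i (by omega) (by omega)

end Pool.Agent.TW4.So
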