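import Pool.Agent.TW4.So.Data.F9_9a
import Pool.Agent.TW4.So.Data.F9_9b
import Pool.Agent.TW4.So.Data.F9_9c
import Pool.Agent.TW4.So.Data.F9_9d
import Pool.Agent.TW4.So.Data.F9_9e

namespace Pool.Agent.TW4.So

open Pool.Agent.TW4 Pool.Agent.TW4.Sm

theorem allF9_9 : ∀ i, 28974 ≤ i → i < 32056 → QF 9 (ent 9 F9 A9 i) := by
  intro i hl hi
  rcases Nat.lt_or_ge i 29061 with h0 | h0
  · exact chunkF 28974 87 (by norm_num) full9 f9_c360 i (by omega) (by omega)
  rcases Nat.lt_or_ge i 29164 with h1 | h1
  · exact chunkF 29061 103 (by norm_num) full9 f9_c361 i (by omega) (by omega)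
  rcases Nat.lt_or_ge i 29259 with h2 | h2
  · exact chunkF 29164 95 (by norm_num) full9 f9_c362 i (by omega) (by omega)
  rcases Nat.lt_or_ge i 29349 with h3 | h3
  · exact chunkF 29259 90 (by norm_num) full9 f9_c363 i (by omega) (by omega)
  rcases Nat.lt_or_ge i 29426 with h4 | h4
  · exact chunkF 29349 77 (by norm_num) full9 f9_c364 i (by omega) (by omega)
  rcases Nat.lt_or_ge i 29489 with h5 | h5
  · exact chunkF 29426 63 (by norm_num) full9 f9_c365 i (by omega) (by omega)
  rcases Nat.lt_or_ge i 29598 with h6 | h6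
  · exact chunkF 29489 109 (by norm_num) full9 f9_c366 i (by omega) (by omega)
  rcases Nat.lt_or_ge i 29693 with h7 | h7
  · exact chunkF 29598 95 (by norm_num) full9 f9_c367 i (by omega) (by omega)
  rcases Nat.lt_or_ge i 29768 with h8 | h8
  · exact chunkF 29693 75 (by norm_num) full9 f9_c368 i (by omega) (by omega)
  rcases Nat.lt_or_ge i 29831 with h9 | h9
  · exact chunkF 29768 63 (by norm_num) full9 f9_c369 i (by omega) (by omega)
  rcases Nat.lt_or_ge i 29905 with h10 | h10
  · exact chunkF 29831 74 (by norm_num) full9 f9_c370 i (by omega) (by omega)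
  rcases Nat.lt_or_ge i 29978 with h11 | h11
  · exact chunkF 29905 73 (by norm_num) full9 f9_c371 i (by omega) (by omega)
  rcases Nat.lt_or_ge i 30057 with h12 | h12
  · exact chunkF 29978 79 (by norm_num) full9 f9_c372 i (by omega) (by omega)
  rcases Nat.lt_or_ge i 30139 with h13 | h13
  · exact chunkF 30057 82 (by norm_num) full9 f9_c373 i (by omega) (by omega)
  rcases Nat.lt_or_ge i 30204 with h14 | h14
  · exact chunkF 30139 65 (by norm_num) full9 f9_c374 i (by omega) (by omega)
  rcases Nat.lt_or_ge i 30278 with h15 | h15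
  · exact chunkF 30204 74 (by norm_num) full9 f9_c375 i (by omega) (by omega)
  rcases Nat.lt_or_ge i 30380 with h16 | h16
  · exact chunkF 30278 102 (by norm_num) full9 f9_c376 i (by omega) (by omega)
  rcases Nat.lt_or_ge i 30450 with h17 | h17
  · exact chunkF 30380 70 (by norm_num) full9 f9_c377 i (by omega) (by omega)
  rcases Nat.lt_or_ge i 30520 with h18 | h18
  · exact chunkF 30450 70 (by norm_num) full9 f9_c378 i (by omega) (by omega)
  rcases Nat.lt_or_ge i 30600 with h19 | h19
  · exact chunkF 30520 80 (by norm_num) full9 f9_c379 i (by omega) (by omega)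
  rcases Nat.lt_or_ge i 30661 with h20 | h20
  · exact chunkF 30600 61 (by norm_num) full9 f9_c380 i (by omega) (by omega)
  rcases Nat.lt_or_ge i 30732 with h21 | h21
  · exact chunkF 30661 71 (by norm_num) full9 f9_c381 i (by omega) (by omega)
  rcases Nat.lt_or_ge i 30811 with h22 | h22
  · exact chunkF 30732 79 (by norm_num) full9 f9_c382 i (by omega) (by omega)
  rcases Nat.lt_or_ge i 30883 with h23 | h23
  · exact chunkF 30811 72 (by norm_num) full9 f9_c383 i (by omega) (by omega)
  rcases Nat.lt_or_ge i 30961 with h24 | h24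
  · exact chunkF 30883 78 (by norm_num) full9 f9_c384 i (by omega) (by omega)
  rcases Nat.lt_or_ge i 31032 with h25 | h25
  · exact chunkF 30961 71 (by norm_num) full9 f9_c385 i (by omega) (by omega)
  rcases Nat.lt_or_ge i 31100 with h26 | h26
  · exact chunkF 31032 68 (by norm_num) full9 f9_c386 i (by omega) (by omega)
  rcases Nat.lt_or_ge i 31156 with h27 | h27
  · exact chunkF 31100 56 (by norm_num) full9 f9_c387 i (by omega) (by omega)
  rcases Nat.lt_or_ge i 31220 with h28 | h28
  · exact chunkF 31156 64 (by norm_num) full9 f9_c388 i (by omega) (by omega)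
  rcases Nat.lt_or_ge i 31285 with h29 | h29
  · exact chunkF 31220 65 (by norm_num) full9 f9_c389 i (by omega) (by omega)
  rcases Nat.lt_or_ge i 31373 with h30 | h30
  · exact chunkF 31285 88 (by norm_num) full9 f9_c390 i (by omega) (by omega)
  rcases Nat.lt_or_ge i 31464 with h31 | h31
  · exact chunkF 31373 91 (by norm_num) full9 f9_c391 i (by omega) (by omega)
  rcases Nat.lt_or_ge i 31540 with h32 | h32
  · exact chunkF 31464 76 (by norm_num) full9 f9_c392 i (by omega) (by omega)
  rcases Nat.lt_or_ge i 31620 with h33 | h33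
  · exact chunkF 31540 80 (by norm_num) full9 f9_c393 i (by omega) (by omega)
  rcases Nat.lt_or_ge i 31731 with h34 | h34
  · exact chunkF 31620 111 (by norm_num) full9 f9_c394 i (by omega) (by omega)
  rcases Nat.lt_or_ge i 31804 with h35 | h35
  · exact chunkF 31731 73 (by norm_num) full9 f9_c395 i (by omega) (by omega)
  rcases Nat.lt_or_ge i 31859 with h36 | h36
  · exact chunkF 31804 55 (by norm_num) full9 f9_c396 i (by omega) (by omega)
  rcases Nat.lt_or_ge i 31923 with h37 | h37
  · exact chunkF 31859 64 (by norm_num) full9 f9_c397 i (by omega) (by omega)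
  rcases Nat.lt_or_ge i 31998 with h38 | h38
  · exact chunkF 31923 75 (by norm_num) full9 f9_c398 i (by omega) (by omega)
  exact chunkF 31998 58 (by norm_num) full9 f9_c399 i (by omega) (by omega)

end Pool.Agent.TW4.So
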