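import Pool.Agent.TW4.So.Arr

namespace Pool.Agent.TW4.So

open Pool.Agent.TW4 Pool.Agent.TW4.Sm

theorem i1_c0 : lvl (stI 1 2 F1 F2 A2 2 false) 16 1 (Nat.shiftRight A1 0)
  0x1111111101000000000000010000100 = true := by
  decide +kernel

theorem allI1_0 : ∀ i, 0 ≤ i → i < 1 → QI false 1 F2 A2 2 (ent 1 F1 A1 i) := by
  intro i hl hi
  exact chunkI 0 1 (by norm_num) full1 i1_c0 i (by omega) (by omega)

end Pool.Agent.TW4.So
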