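import Pool.Agent.TW4.So.Arr

namespace Pool.Agent.TW4.So

open Pool.Agent.TW4 Pool.Agent.TW4.Sm

theorem i2_c0 : lvl (stI 2 3 F2 F3 A3 4 false) 32 2 (Nat.shiftRight A2 0)
  0x1200001022222221020002000000001200002011111112010003000000000210000000 = true := by
  decide +kernel

theorem allI2_0 : ∀ i, 0 ≤ i → i < 2 → QI false 2 F3 A3 4 (ent 2 F2 A2 i) := by
  intro i hl hi
  exact chunkI 0 2 (by norm_num) full2 i2_c0 i (by omega) (by omega)

end Pool.Agent.TW4.So
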