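import Pool.Agent.TW4.So.Arr

namespace Pool.Agent.TW4.So

open Pool.Agent.TW4 Pool.Agent.TW4.Sm

theorem i3_c0 : lvl (stI 3 4 F3 F4 A4 11 false) 48 4 (Nat.shiftRight A3 0)
  0x1111113201000201111113021000402222223012000403333331023000902222223102000403333331203000900000001230000900000002310000a00000000132000060000000231000050111111230100050222222310200070222222130200080011111130210001033333320130003003333331203000000 = true := by
  decide +kernel

theorem allI3_0 : ∀ i, 0 ≤ i → i < 4 → QI false 3 F4 A4 11 (ent 3 F3 A3 i) := by
  intro i hl hi
  exact chunkI 0 4 (by norm_num) full3 i3_c0 i (by omega) (by omega)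

end Pool.Agent.TW4.So
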