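import Pool.Agent.TW4.So.Arr

namespace Pool.Agent.TW4.So

open Pool.Agent.TW4 Pool.Agent.TW4.Sm

theorem i4_c0 : lvl (stI 4 5 F4 F5 A5 34 false) 64 11 (Nat.shiftRight A4 0)
  0x32410001000000031420001102222231402001103333304123001f02222231042001103333304213001f01111104231001f03333342013001702222230142001103333302413001f01111102431001f03333340213001701111102341001f033333401230017022222401320017000000243100021000000042310000403333341203001200000041230001204444421304001c01111104321001e02222231042000904444431024000900000023140001d01111103421001e02222230142000904444430124000900000021340001d04444410234000d002222234102000f02222241302000b00000041320000b00000041230000b044444130240013003333324013001400000041320000502222243102000500000041320000e03333341023000501111124301001603333341023000e02222240132000502222240132000e00000023410001603333342013000e0033333401230001044444012340007000000024310000801111132041000b03333301243000a01111103421000a01111102341000c02222231402000b002222234012000604444401234001b03333320143002002222201432001b00000034120001800000013420000e04444410234001a04444413024000e003333340213000201111124031000703333320413000703333320143000704444421034000700444440231400150444441032400190011111240310003001111130241000000 = true := by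
  decide +kernel

theorem allI4_0 : ∀ i, 0 ≤ i → i < 11 → QI false 4 F5 A5 34 (ent 4 F4 A4 i) := by
  intro i hl hi
  exact chunkI 0 11 (by norm_num) full4 i4_c0 i (by omega) (by omega)

end Pool.Agent.TW4.So
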