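import Pool.Agent.TW4.So.Data.I7_0a
import Pool.Agent.TW4.So.Data.I7_0b
import Pool.Agent.TW4.So.Data.I7_0c
import Pool.Agent.TW4.So.Data.I7_0d
import Pool.Agent.TW4.So.Data.I7_0e

namespace Pool.Agent.TW4.So

open Pool.Agent.TW4 Pool.Agent.TW4.Sm

theorem allI7_0 : ∀ i, 0 ≤ i → i < 954 → QI false 7 F8 A8 11767 (ent 7 F7 A7 i) := by
  intro i hl hi
  rcases Nat.lt_or_ge i 96 with h0 | h0
  · exact chunkI 0 96 (by norm_num) full7 i7_c0 i (by omega) (by omega)
  rcases Nat.lt_or_ge i 137 with h1 | h1
  · exact chunkI 96 41 (by norm_num) full7 i7_c1 i (by omega) (by omega)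
  rcases Nat.lt_or_ge i 165 with h2 | h2
  · exact chunkI 137 28 (by norm_num) full7 i7_c2 i (by omega) (by omega)
  rcases Nat.lt_or_ge i 195 with h3 | h3
  · exact chunkI 165 30 (by norm_num) full7 i7_c3 i (by omega) (by omega)
  rcases Nat.lt_or_ge i 226 with h4 | h4
  · exact chunkI 195 31 (by norm_num) full7 i7_c4 i (by omega) (by omega)
  rcases Nat.lt_or_ge i 250 with h5 | h5
  · exact chunkI 226 24 (by norm_num) full7 i7_c5 i (by omega) (by omega)
  rcases Nat.lt_or_ge i 277 with h6 | h6
  · exact chunkI 250 27 (by norm_num) full7 i7_c6 i (by omega) (by omega)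
  rcases Nat.lt_or_ge i 304 with h7 | h7
  · exact chunkI 277 27 (by norm_num) full7 i7_c7 i (by omega) (by omega)
  rcases Nat.lt_or_ge i 337 with h8 | h8
  · exact chunkI 304 33 (by norm_num) full7 i7_c8 i (by omega) (by omega)
  rcases Nat.lt_or_ge i 361 with h9 | h9
  · exact chunkI 337 24 (by norm_num) full7 i7_c9 i (by omega) (by omega)
  rcases Nat.lt_or_ge i 386 with h10 | h10
  · exact chunkI 361 25 (by norm_num) full7 i7_c10 i (by omega) (by omega)
  rcases Nat.lt_or_ge i 406 with h11 | h11
  · exact chunkI 386 20 (by norm_num) full7 i7_c11 i (by omega) (by omega)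
  rcases Nat.lt_or_ge i 424 with h12 | h12
  · exact chunkI 406 18 (by norm_num) full7 i7_c12 i (by omega) (by omega)
  rcases Nat.lt_or_ge i 446 with h13 | h13
  · exact chunkI 424 22 (by norm_num) full7 i7_c13 i (by omega) (by omega)
  rcases Nat.lt_or_ge i 470 with h14 | h14
  · exact chunkI 446 24 (by norm_num) full7 i7_c14 i (by omega) (by omega)
  rcases Nat.lt_or_ge i 490 with h15 | h15
  · exact chunkI 470 20 (by norm_num) full7 i7_c15 i (by omega) (by omega)
  rcases Nat.lt_or_ge i 505 with h16 | h16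
  · exact chunkI 490 15 (by norm_num) full7 i7_c16 i (by omega) (by omega)
  rcases Nat.lt_or_ge i 519 with h17 | h17
  · exact chunkI 505 14 (by norm_num) full7 i7_c17 i (by omega) (by omega)
  rcases Nat.lt_or_ge i 541 with h18 | h18
  · exact chunkI 519 22 (by norm_num) full7 i7_c18 i (by omega) (by omega)
  rcases Nat.lt_or_ge i 580 with h19 | h19
  · exact chunkI 541 39 (by norm_num) full7 i7_c19 i (by omega) (by omega)
  rcases Nat.lt_or_ge i 607 with h20 | h20
  · exact chunkI 580 27 (by norm_num) full7 i7_c20 i (by omega) (by omega)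
  rcases Nat.lt_or_ge i 622 with h21 | h21
  · exact chunkI 607 15 (by norm_num) full7 i7_c21 i (by omega) (by omega)
  rcases Nat.lt_or_ge i 650 with h22 | h22
  · exact chunkI 622 28 (by norm_num) full7 i7_c22 i (by omega) (by omega)
  rcases Nat.lt_or_ge i 673 with h23 | h23
  · exact chunkI 650 23 (by norm_num) full7 i7_c23 i (by omega) (by omega)
  rcases Nat.lt_or_ge i 698 with h24 | h24
  · exact chunkI 673 25 (by norm_num) full7 i7_c24 i (by omega) (by omega)
  rcases Nat.lt_or_ge i 712 with h25 | h25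
  · exact chunkI 698 14 (by norm_num) full7 i7_c25 i (by omega) (by omega)
  rcases Nat.lt_or_ge i 733 with h26 | h26
  · exact chunkI 712 21 (by norm_num) full7 i7_c26 i (by omega) (by omega)
  rcases Nat.lt_or_ge i 748 with h27 | h27
  · exact chunkI 733 15 (by norm_num) full7 i7_c27 i (by omega) (by omega)
  rcases Nat.lt_or_ge i 765 with h28 | h28
  · exact chunkI 748 17 (by norm_num) full7 i7_c28 i (by omega) (by omega)
  rcases Nat.lt_or_ge i 784 with h29 | h29
  · exact chunkI 765 19 (by norm_num) full7 i7_c29 i (by omega) (by omega)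
  rcases Nat.lt_or_ge i 805 with h30 | h30
  · exact chunkI 784 21 (by norm_num) full7 i7_c30 i (by omega) (by omega)
  rcases Nat.lt_or_ge i 826 with h31 | h31
  · exact chunkI 805 21 (by norm_num) full7 i7_c31 i (by omega) (by omega)
  rcases Nat.lt_or_ge i 844 with h32 | h32
  · exact chunkI 826 18 (by norm_num) full7 i7_c32 i (by omega) (by omega)
  rcases Nat.lt_or_ge i 858 with h33 | h33
  · exact chunkI 844 14 (by norm_num) full7 i7_c33 i (by omega) (by omega)
  rcases Nat.lt_or_ge i 870 with h34 | h34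
  · exact chunkI 858 12 (by norm_num) full7 i7_c34 i (by omega) (by omega)
  rcases Nat.lt_or_ge i 890 with h35 | h35
  · exact chunkI 870 20 (by norm_num) full7 i7_c35 i (by omega) (by omega)
  rcases Nat.lt_or_ge i 904 with h36 | h36
  · exact chunkI 890 14 (by norm_num) full7 i7_c36 i (by omega) (by omega)
  rcases Nat.lt_or_ge i 921 with h37 | h37
  · exact chunkI 904 17 (by norm_num) full7 i7_c37 i (by omega) (by omega)
  rcases Nat.lt_or_ge i 937 with h38 | h38
  · exact chunkI 921 16 (by norm_num) full7 i7_c38 i (by omega) (by omega)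
  exact chunkI 937 17 (by norm_num) full7 i7_c39 i (by omega) (by omega)

end Pool.Agent.TW4.So
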