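import Pool.Agent.TW4.So.Data.I8_0a
import Pool.Agent.TW4.So.Data.I8_0b
import Pool.Agent.TW4.So.Data.I8_0c
import Pool.Agent.TW4.So.Data.I8_0d
import Pool.Agent.TW4.So.Data.I8_0e

namespace Pool.Agent.TW4.So

open Pool.Agent.TW4 Pool.Agent.TW4.Sm

theorem allI8_0 : ∀ i, 0 ≤ i → i < 2365 → QI true 8 F9 A9 38869 (ent 8 F8 A8 i) := by
  intro i hl hi
  rcases Nat.lt_or_ge i 269 with h0 | h0
  · exact chunkJ 0 269 (by norm_num) full8 i8_c0 i (by omega) (by omega)
  rcases Nat.lt_or_ge i 510 with h1 | h1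
  · exact chunkJ 269 241 (by norm_num) full8 i8_c1 i (by omega) (by omega)
  rcases Nat.lt_or_ge i 579 with h2 | h2
  · exact chunkJ 510 69 (by norm_num) full8 i8_c2 i (by omega) (by omega)
  rcases Nat.lt_or_ge i 725 with h3 | h3
  · exact chunkJ 579 146 (by norm_num) full8 i8_c3 i (by omega) (by omega)
  rcases Nat.lt_or_ge i 803 with h4 | h4
  · exact chunkJ 725 78 (by norm_num) full8 i8_c4 i (by omega) (by omega)
  rcases Nat.lt_or_ge i 856 with h5 | h5
  · exact chunkJ 803 53 (by norm_num) full8 i8_c5 i (by omega) (by omega)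
  rcases Nat.lt_or_ge i 928 with h6 | h6
  · exact chunkJ 856 72 (by norm_num) full8 i8_c6 i (by omega) (by omega)
  rcases Nat.lt_or_ge i 970 with h7 | h7
  · exact chunkJ 928 42 (by norm_num) full8 i8_c7 i (by omega) (by omega)
  rcases Nat.lt_or_ge i 995 with h8 | h8
  · exact chunkJ 970 25 (by norm_num) full8 i8_c8 i (by omega) (by omega)
  rcases Nat.lt_or_ge i 1097 with h9 | h9
  · exact chunkJ 995 102 (by norm_num) full8 i8_c9 i (by omega) (by omega)
  rcases Nat.lt_or_ge i 1195 with h10 | h10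
  · exact chunkJ 1097 98 (by norm_num) full8 i8_c10 i (by omega) (by omega)
  rcases Nat.lt_or_ge i 1261 with h11 | h11
  · exact chunkJ 1195 66 (by norm_num) full8 i8_c11 i (by omega) (by omega)
  rcases Nat.lt_or_ge i 1318 with h12 | h12
  · exact chunkJ 1261 57 (by norm_num) full8 i8_c12 i (by omega) (by omega)
  rcases Nat.lt_or_ge i 1372 with h13 | h13
  · exact chunkJ 1318 54 (by norm_num) full8 i8_c13 i (by omega) (by omega)
  rcases Nat.lt_or_ge i 1387 with h14 | h14
  · exact chunkJ 1372 15 (by norm_num) full8 i8_c14 i (by omega) (by omega)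
  rcases Nat.lt_or_ge i 1406 with h15 | h15
  · exact chunkJ 1387 19 (by norm_num) full8 i8_c15 i (by omega) (by omega)
  rcases Nat.lt_or_ge i 1426 with h16 | h16
  · exact chunkJ 1406 20 (by norm_num) full8 i8_c16 i (by omega) (by omega)
  rcases Nat.lt_or_ge i 1490 with h17 | h17
  · exact chunkJ 1426 64 (by norm_num) full8 i8_c17 i (by omega) (by omega)
  rcases Nat.lt_or_ge i 1550 with h18 | h18
  · exact chunkJ 1490 60 (by norm_num) full8 i8_c18 i (by omega) (by omega)
  rcases Nat.lt_or_ge i 1573 with h19 | h19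
  · exact chunkJ 1550 23 (by norm_num) full8 i8_c19 i (by omega) (by omega)
  rcases Nat.lt_or_ge i 1591 with h20 | h20
  · exact chunkJ 1573 18 (by norm_num) full8 i8_c20 i (by omega) (by omega)
  rcases Nat.lt_or_ge i 1631 with h21 | h21
  · exact chunkJ 1591 40 (by norm_num) full8 i8_c21 i (by omega) (by omega)
  rcases Nat.lt_or_ge i 1655 with h22 | h22
  · exact chunkJ 1631 24 (by norm_num) full8 i8_c22 i (by omega) (by omega)
  rcases Nat.lt_or_ge i 1690 with h23 | h23
  · exact chunkJ 1655 35 (by norm_num) full8 i8_c23 i (by omega) (by omega)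
  rcases Nat.lt_or_ge i 1717 with h24 | h24
  · exact chunkJ 1690 27 (by norm_num) full8 i8_c24 i (by omega) (by omega)
  rcases Nat.lt_or_ge i 1740 with h25 | h25
  · exact chunkJ 1717 23 (by norm_num) full8 i8_c25 i (by omega) (by omega)
  rcases Nat.lt_or_ge i 1752 with h26 | h26
  · exact chunkJ 1740 12 (by norm_num) full8 i8_c26 i (by omega) (by omega)
  rcases Nat.lt_or_ge i 1761 with h27 | h27
  · exact chunkJ 1752 9 (by norm_num) full8 i8_c27 i (by omega) (by omega)
  rcases Nat.lt_or_ge i 1916 with h28 | h28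
  · exact chunkJ 1761 155 (by norm_num) full8 i8_c28 i (by omega) (by omega)
  rcases Nat.lt_or_ge i 1980 with h29 | h29
  · exact chunkJ 1916 64 (by norm_num) full8 i8_c29 i (by omega) (by omega)
  rcases Nat.lt_or_ge i 2059 with h30 | h30
  · exact chunkJ 1980 79 (by norm_num) full8 i8_c30 i (by omega) (by omega)
  rcases Nat.lt_or_ge i 2099 with h31 | h31
  · exact chunkJ 2059 40 (by norm_num) full8 i8_c31 i (by omega) (by omega)
  rcases Nat.lt_or_ge i 2124 with h32 | h32
  · exact chunkJ 2099 25 (by norm_num) full8 i8_c32 i (by omega) (by omega)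
  rcases Nat.lt_or_ge i 2156 with h33 | h33
  · exact chunkJ 2124 32 (by norm_num) full8 i8_c33 i (by omega) (by omega)
  rcases Nat.lt_or_ge i 2229 with h34 | h34
  · exact chunkJ 2156 73 (by norm_num) full8 i8_c34 i (by omega) (by omega)
  rcases Nat.lt_or_ge i 2261 with h35 | h35
  · exact chunkJ 2229 32 (by norm_num) full8 i8_c35 i (by omega) (by omega)
  rcases Nat.lt_or_ge i 2278 with h36 | h36
  · exact chunkJ 2261 17 (by norm_num) full8 i8_c36 i (by omega) (by omega)
  rcases Nat.lt_or_ge i 2297 with h37 | h37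
  · exact chunkJ 2278 19 (by norm_num) full8 i8_c37 i (by omega) (by omega)
  rcases Nat.lt_or_ge i 2325 with h38 | h38
  · exact chunkJ 2297 28 (by norm_num) full8 i8_c38 i (by omega) (by omega)
  exact chunkJ 2325 40 (by norm_num) full8 i8_c39 i (by omega) (by omega)

end Pool.Agent.TW4.So
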