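import Pool.Agent.TW4.So.Data.I8_1a
import Pool.Agent.TW4.So.Data.I8_1b
import Pool.Agent.TW4.So.Data.I8_1c
import Pool.Agent.TW4.So.Data.I8_1d
import Pool.Agent.TW4.So.Data.I8_1e

namespace Pool.Agent.TW4.So

open Pool.Agent.TW4 Pool.Agent.TW4.Sm

theorem allI8_1 : ∀ i, 2365 ≤ i → i < 3731 → QI true 8 F9 A9 38869 (ent 8 F8 A8 i) := by
  intro i hl hi
  rcases Nat.lt_or_ge i 2382 with h0 | h0
  · exact chunkJ 2365 17 (by norm_num) full8 i8_c40 i (by omega) (by omega)
  rcases Nat.lt_or_ge i 2405 with h1 | h1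
  · exact chunkJ 2382 23 (by norm_num) full8 i8_c41 i (by omega) (by omega)
  rcases Nat.lt_or_ge i 2447 with h2 | h2
  · exact chunkJ 2405 42 (by norm_num) full8 i8_c42 i (by omega) (by omega)
  rcases Nat.lt_or_ge i 2470 with h3 | h3
  · exact chunkJ 2447 23 (by norm_num) full8 i8_c43 i (by omega) (by omega)
  rcases Nat.lt_or_ge i 2485 with h4 | h4
  · exact chunkJ 2470 15 (by norm_num) full8 i8_c44 i (by omega) (by omega)
  rcases Nat.lt_or_ge i 2548 with h5 | h5
  · exact chunkJ 2485 63 (by norm_num) full8 i8_c45 i (by omega) (by omega)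
  rcases Nat.lt_or_ge i 2591 with h6 | h6
  · exact chunkJ 2548 43 (by norm_num) full8 i8_c46 i (by omega) (by omega)
  rcases Nat.lt_or_ge i 2616 with h7 | h7
  · exact chunkJ 2591 25 (by norm_num) full8 i8_c47 i (by omega) (by omega)
  rcases Nat.lt_or_ge i 2635 with h8 | h8
  · exact chunkJ 2616 19 (by norm_num) full8 i8_c48 i (by omega) (by omega)
  rcases Nat.lt_or_ge i 2651 with h9 | h9
  · exact chunkJ 2635 16 (by norm_num) full8 i8_c49 i (by omega) (by omega)
  rcases Nat.lt_or_ge i 2695 with h10 | h10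
  · exact chunkJ 2651 44 (by norm_num) full8 i8_c50 i (by omega) (by omega)
  rcases Nat.lt_or_ge i 2723 with h11 | h11
  · exact chunkJ 2695 28 (by norm_num) full8 i8_c51 i (by omega) (by omega)
  rcases Nat.lt_or_ge i 2753 with h12 | h12
  · exact chunkJ 2723 30 (by norm_num) full8 i8_c52 i (by omega) (by omega)
  rcases Nat.lt_or_ge i 2779 with h13 | h13
  · exact chunkJ 2753 26 (by norm_num) full8 i8_c53 i (by omega) (by omega)
  rcases Nat.lt_or_ge i 2790 with h14 | h14
  · exact chunkJ 2779 11 (by norm_num) full8 i8_c54 i (by omega) (by omega)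
  rcases Nat.lt_or_ge i 2804 with h15 | h15
  · exact chunkJ 2790 14 (by norm_num) full8 i8_c55 i (by omega) (by omega)
  rcases Nat.lt_or_ge i 2831 with h16 | h16
  · exact chunkJ 2804 27 (by norm_num) full8 i8_c56 i (by omega) (by omega)
  rcases Nat.lt_or_ge i 2859 with h17 | h17
  · exact chunkJ 2831 28 (by norm_num) full8 i8_c57 i (by omega) (by omega)
  rcases Nat.lt_or_ge i 2878 with h18 | h18
  · exact chunkJ 2859 19 (by norm_num) full8 i8_c58 i (by omega) (by omega)
  rcases Nat.lt_or_ge i 2895 with h19 | h19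
  · exact chunkJ 2878 17 (by norm_num) full8 i8_c59 i (by omega) (by omega)
  rcases Nat.lt_or_ge i 2930 with h20 | h20
  · exact chunkJ 2895 35 (by norm_num) full8 i8_c60 i (by omega) (by omega)
  rcases Nat.lt_or_ge i 2949 with h21 | h21
  · exact chunkJ 2930 19 (by norm_num) full8 i8_c61 i (by omega) (by omega)
  rcases Nat.lt_or_ge i 2974 with h22 | h22
  · exact chunkJ 2949 25 (by norm_num) full8 i8_c62 i (by omega) (by omega)
  rcases Nat.lt_or_ge i 2985 with h23 | h23
  · exact chunkJ 2974 11 (by norm_num) full8 i8_c63 i (by omega) (by omega)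
  rcases Nat.lt_or_ge i 3017 with h24 | h24
  · exact chunkJ 2985 32 (by norm_num) full8 i8_c64 i (by omega) (by omega)
  rcases Nat.lt_or_ge i 3041 with h25 | h25
  · exact chunkJ 3017 24 (by norm_num) full8 i8_c65 i (by omega) (by omega)
  rcases Nat.lt_or_ge i 3066 with h26 | h26
  · exact chunkJ 3041 25 (by norm_num) full8 i8_c66 i (by omega) (by omega)
  rcases Nat.lt_or_ge i 3081 with h27 | h27
  · exact chunkJ 3066 15 (by norm_num) full8 i8_c67 i (by omega) (by omega)
  rcases Nat.lt_or_ge i 3097 with h28 | h28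
  · exact chunkJ 3081 16 (by norm_num) full8 i8_c68 i (by omega) (by omega)
  rcases Nat.lt_or_ge i 3139 with h29 | h29
  · exact chunkJ 3097 42 (by norm_num) full8 i8_c69 i (by omega) (by omega)
  rcases Nat.lt_or_ge i 3162 with h30 | h30
  · exact chunkJ 3139 23 (by norm_num) full8 i8_c70 i (by omega) (by omega)
  rcases Nat.lt_or_ge i 3192 with h31 | h31
  · exact chunkJ 3162 30 (by norm_num) full8 i8_c71 i (by omega) (by omega)
  rcases Nat.lt_or_ge i 3339 with h32 | h32
  · exact chunkJ 3192 147 (by norm_num) full8 i8_c72 i (by omega) (by omega)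
  rcases Nat.lt_or_ge i 3399 with h33 | h33
  · exact chunkJ 3339 60 (by norm_num) full8 i8_c73 i (by omega) (by omega)
  rcases Nat.lt_or_ge i 3507 with h34 | h34
  · exact chunkJ 3399 108 (by norm_num) full8 i8_c74 i (by omega) (by omega)
  rcases Nat.lt_or_ge i 3538 with h35 | h35
  · exact chunkJ 3507 31 (by norm_num) full8 i8_c75 i (by omega) (by omega)
  rcases Nat.lt_or_ge i 3568 with h36 | h36
  · exact chunkJ 3538 30 (by norm_num) full8 i8_c76 i (by omega) (by omega)
  rcases Nat.lt_or_ge i 3619 with h37 | h37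
  · exact chunkJ 3568 51 (by norm_num) full8 i8_c77 i (by omega) (by omega)
  rcases Nat.lt_or_ge i 3699 with h38 | h38
  · exact chunkJ 3619 80 (by norm_num) full8 i8_c78 i (by omega) (by omega)
  exact chunkJ 3699 32 (by norm_num) full8 i8_c79 i (by omega) (by omega)

end Pool.Agent.TW4.So
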