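import Pool.Agent.TW4.So.Data.I8_2a
import Pool.Agent.TW4.So.Data.I8_2b
import Pool.Agent.TW4.So.Data.I8_2c
import Pool.Agent.TW4.So.Data.I8_2d
import Pool.Agent.TW4.So.Data.I8_2e

namespace Pool.Agent.TW4.So

open Pool.Agent.TW4 Pool.Agent.TW4.Sm

theorem allI8_2 : ∀ i, 3731 ≤ i → i < 4912 → QI true 8 F9 A9 38869 (ent 8 F8 A8 i) := by
  intro i hl hi
  rcases Nat.lt_or_ge i 3750 with h0 | h0
  · exact chunkJ 3731 19 (by norm_num) full8 i8_c80 i (by omega) (by omega)
  rcases Nat.lt_or_ge i 3773 with h1 | h1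
  · exact chunkJ 3750 23 (by norm_num) full8 i8_c81 i (by omega) (by omega)
  rcases Nat.lt_or_ge i 3823 with h2 | h2
  · exact chunkJ 3773 50 (by norm_num) full8 i8_c82 i (by omega) (by omega)
  rcases Nat.lt_or_ge i 3851 with h3 | h3
  · exact chunkJ 3823 28 (by norm_num) full8 i8_c83 i (by omega) (by omega)
  rcases Nat.lt_or_ge i 3866 with h4 | h4
  · exact chunkJ 3851 15 (by norm_num) full8 i8_c84 i (by omega) (by omega)
  rcases Nat.lt_or_ge i 3897 with h5 | h5
  · exact chunkJ 3866 31 (by norm_num) full8 i8_c85 i (by omega) (by omega)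
  rcases Nat.lt_or_ge i 3912 with h6 | h6
  · exact chunkJ 3897 15 (by norm_num) full8 i8_c86 i (by omega) (by omega)
  rcases Nat.lt_or_ge i 3933 with h7 | h7
  · exact chunkJ 3912 21 (by norm_num) full8 i8_c87 i (by omega) (by omega)
  rcases Nat.lt_or_ge i 3952 with h8 | h8
  · exact chunkJ 3933 19 (by norm_num) full8 i8_c88 i (by omega) (by omega)
  rcases Nat.lt_or_ge i 3981 with h9 | h9
  · exact chunkJ 3952 29 (by norm_num) full8 i8_c89 i (by omega) (by omega)
  rcases Nat.lt_or_ge i 4055 with h10 | h10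
  · exact chunkJ 3981 74 (by norm_num) full8 i8_c90 i (by omega) (by omega)
  rcases Nat.lt_or_ge i 4094 with h11 | h11
  · exact chunkJ 4055 39 (by norm_num) full8 i8_c91 i (by omega) (by omega)
  rcases Nat.lt_or_ge i 4123 with h12 | h12
  · exact chunkJ 4094 29 (by norm_num) full8 i8_c92 i (by omega) (by omega)
  rcases Nat.lt_or_ge i 4165 with h13 | h13
  · exact chunkJ 4123 42 (by norm_num) full8 i8_c93 i (by omega) (by omega)
  rcases Nat.lt_or_ge i 4190 with h14 | h14
  · exact chunkJ 4165 25 (by norm_num) full8 i8_c94 i (by omega) (by omega)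
  rcases Nat.lt_or_ge i 4215 with h15 | h15
  · exact chunkJ 4190 25 (by norm_num) full8 i8_c95 i (by omega) (by omega)
  rcases Nat.lt_or_ge i 4234 with h16 | h16
  · exact chunkJ 4215 19 (by norm_num) full8 i8_c96 i (by omega) (by omega)
  rcases Nat.lt_or_ge i 4270 with h17 | h17
  · exact chunkJ 4234 36 (by norm_num) full8 i8_c97 i (by omega) (by omega)
  rcases Nat.lt_or_ge i 4299 with h18 | h18
  · exact chunkJ 4270 29 (by norm_num) full8 i8_c98 i (by omega) (by omega)
  rcases Nat.lt_or_ge i 4312 with h19 | h19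
  · exact chunkJ 4299 13 (by norm_num) full8 i8_c99 i (by omega) (by omega)
  rcases Nat.lt_or_ge i 4352 with h20 | h20
  · exact chunkJ 4312 40 (by norm_num) full8 i8_c100 i (by omega) (by omega)
  rcases Nat.lt_or_ge i 4377 with h21 | h21
  · exact chunkJ 4352 25 (by norm_num) full8 i8_c101 i (by omega) (by omega)
  rcases Nat.lt_or_ge i 4402 with h22 | h22
  · exact chunkJ 4377 25 (by norm_num) full8 i8_c102 i (by omega) (by omega)
  rcases Nat.lt_or_ge i 4437 with h23 | h23
  · exact chunkJ 4402 35 (by norm_num) full8 i8_c103 i (by omega) (by omega)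
  rcases Nat.lt_or_ge i 4460 with h24 | h24
  · exact chunkJ 4437 23 (by norm_num) full8 i8_c104 i (by omega) (by omega)
  rcases Nat.lt_or_ge i 4480 with h25 | h25
  · exact chunkJ 4460 20 (by norm_num) full8 i8_c105 i (by omega) (by omega)
  rcases Nat.lt_or_ge i 4495 with h26 | h26
  · exact chunkJ 4480 15 (by norm_num) full8 i8_c106 i (by omega) (by omega)
  rcases Nat.lt_or_ge i 4527 with h27 | h27
  · exact chunkJ 4495 32 (by norm_num) full8 i8_c107 i (by omega) (by omega)
  rcases Nat.lt_or_ge i 4544 with h28 | h28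
  · exact chunkJ 4527 17 (by norm_num) full8 i8_c108 i (by omega) (by omega)
  rcases Nat.lt_or_ge i 4566 with h29 | h29
  · exact chunkJ 4544 22 (by norm_num) full8 i8_c109 i (by omega) (by omega)
  rcases Nat.lt_or_ge i 4585 with h30 | h30
  · exact chunkJ 4566 19 (by norm_num) full8 i8_c110 i (by omega) (by omega)
  rcases Nat.lt_or_ge i 4617 with h31 | h31
  · exact chunkJ 4585 32 (by norm_num) full8 i8_c111 i (by omega) (by omega)
  rcases Nat.lt_or_ge i 4631 with h32 | h32
  · exact chunkJ 4617 14 (by norm_num) full8 i8_c112 i (by omega) (by omega)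
  rcases Nat.lt_or_ge i 4654 with h33 | h33
  · exact chunkJ 4631 23 (by norm_num) full8 i8_c113 i (by omega) (by omega)
  rcases Nat.lt_or_ge i 4674 with h34 | h34
  · exact chunkJ 4654 20 (by norm_num) full8 i8_c114 i (by omega) (by omega)
  rcases Nat.lt_or_ge i 4748 with h35 | h35
  · exact chunkJ 4674 74 (by norm_num) full8 i8_c115 i (by omega) (by omega)
  rcases Nat.lt_or_ge i 4816 with h36 | h36
  · exact chunkJ 4748 68 (by norm_num) full8 i8_c116 i (by omega) (by omega)
  rcases Nat.lt_or_ge i 4843 with h37 | h37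
  · exact chunkJ 4816 27 (by norm_num) full8 i8_c117 i (by omega) (by omega)
  rcases Nat.lt_or_ge i 4894 with h38 | h38
  · exact chunkJ 4843 51 (by norm_num) full8 i8_c118 i (by omega) (by omega)
  exact chunkJ 4894 18 (by norm_num) full8 i8_c119 i (by omega) (by omega)

end Pool.Agent.TW4.So
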