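import Pool.Agent.TW4.So.Data.I8_3a
import Pool.Agent.TW4.So.Data.I8_3b
import Pool.Agent.TW4.So.Data.I8_3c
import Pool.Agent.TW4.So.Data.I8_3d
import Pool.Agent.TW4.So.Data.I8_3e

namespace Pool.Agent.TW4.So

open Pool.Agent.TW4 Pool.Agent.TW4.Sm

theorem allI8_3 : ∀ i, 4912 ≤ i → i < 5913 → QI true 8 F9 A9 38869 (ent 8 F8 A8 i) := by
  intro i hl hi
  rcases Nat.lt_or_ge i 4946 with h0 | h0
  · exact chunkJ 4912 34 (by norm_num) full8 i8_c120 i (by omega) (by omega)
  rcases Nat.lt_or_ge i 4963 with h1 | h1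
  · exact chunkJ 4946 17 (by norm_num) full8 i8_c121 i (by omega) (by omega)
  rcases Nat.lt_or_ge i 4981 with h2 | h2
  · exact chunkJ 4963 18 (by norm_num) full8 i8_c122 i (by omega) (by omega)
  rcases Nat.lt_or_ge i 5005 with h3 | h3
  · exact chunkJ 4981 24 (by norm_num) full8 i8_c123 i (by omega) (by omega)
  rcases Nat.lt_or_ge i 5042 with h4 | h4
  · exact chunkJ 5005 37 (by norm_num) full8 i8_c124 i (by omega) (by omega)
  rcases Nat.lt_or_ge i 5076 with h5 | h5
  · exact chunkJ 5042 34 (by norm_num) full8 i8_c125 i (by omega) (by omega)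
  rcases Nat.lt_or_ge i 5095 with h6 | h6
  · exact chunkJ 5076 19 (by norm_num) full8 i8_c126 i (by omega) (by omega)
  rcases Nat.lt_or_ge i 5128 with h7 | h7
  · exact chunkJ 5095 33 (by norm_num) full8 i8_c127 i (by omega) (by omega)
  rcases Nat.lt_or_ge i 5152 with h8 | h8
  · exact chunkJ 5128 24 (by norm_num) full8 i8_c128 i (by omega) (by omega)
  rcases Nat.lt_or_ge i 5181 with h9 | h9
  · exact chunkJ 5152 29 (by norm_num) full8 i8_c129 i (by omega) (by omega)
  rcases Nat.lt_or_ge i 5193 with h10 | h10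
  · exact chunkJ 5181 12 (by norm_num) full8 i8_c130 i (by omega) (by omega)
  rcases Nat.lt_or_ge i 5206 with h11 | h11
  · exact chunkJ 5193 13 (by norm_num) full8 i8_c131 i (by omega) (by omega)
  rcases Nat.lt_or_ge i 5235 with h12 | h12
  · exact chunkJ 5206 29 (by norm_num) full8 i8_c132 i (by omega) (by omega)
  rcases Nat.lt_or_ge i 5261 with h13 | h13
  · exact chunkJ 5235 26 (by norm_num) full8 i8_c133 i (by omega) (by omega)
  rcases Nat.lt_or_ge i 5278 with h14 | h14
  · exact chunkJ 5261 17 (by norm_num) full8 i8_c134 i (by omega) (by omega)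
  rcases Nat.lt_or_ge i 5289 with h15 | h15
  · exact chunkJ 5278 11 (by norm_num) full8 i8_c135 i (by omega) (by omega)
  rcases Nat.lt_or_ge i 5321 with h16 | h16
  · exact chunkJ 5289 32 (by norm_num) full8 i8_c136 i (by omega) (by omega)
  rcases Nat.lt_or_ge i 5354 with h17 | h17
  · exact chunkJ 5321 33 (by norm_num) full8 i8_c137 i (by omega) (by omega)
  rcases Nat.lt_or_ge i 5385 with h18 | h18
  · exact chunkJ 5354 31 (by norm_num) full8 i8_c138 i (by omega) (by omega)
  rcases Nat.lt_or_ge i 5411 with h19 | h19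
  · exact chunkJ 5385 26 (by norm_num) full8 i8_c139 i (by omega) (by omega)
  rcases Nat.lt_or_ge i 5433 with h20 | h20
  · exact chunkJ 5411 22 (by norm_num) full8 i8_c140 i (by omega) (by omega)
  rcases Nat.lt_or_ge i 5460 with h21 | h21
  · exact chunkJ 5433 27 (by norm_num) full8 i8_c141 i (by omega) (by omega)
  rcases Nat.lt_or_ge i 5493 with h22 | h22
  · exact chunkJ 5460 33 (by norm_num) full8 i8_c142 i (by omega) (by omega)
  rcases Nat.lt_or_ge i 5520 with h23 | h23
  · exact chunkJ 5493 27 (by norm_num) full8 i8_c143 i (by omega) (by omega)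
  rcases Nat.lt_or_ge i 5537 with h24 | h24
  · exact chunkJ 5520 17 (by norm_num) full8 i8_c144 i (by omega) (by omega)
  rcases Nat.lt_or_ge i 5557 with h25 | h25
  · exact chunkJ 5537 20 (by norm_num) full8 i8_c145 i (by omega) (by omega)
  rcases Nat.lt_or_ge i 5592 with h26 | h26
  · exact chunkJ 5557 35 (by norm_num) full8 i8_c146 i (by omega) (by omega)
  rcases Nat.lt_or_ge i 5607 with h27 | h27
  · exact chunkJ 5592 15 (by norm_num) full8 i8_c147 i (by omega) (by omega)
  rcases Nat.lt_or_ge i 5630 with h28 | h28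
  · exact chunkJ 5607 23 (by norm_num) full8 i8_c148 i (by omega) (by omega)
  rcases Nat.lt_or_ge i 5662 with h29 | h29
  · exact chunkJ 5630 32 (by norm_num) full8 i8_c149 i (by omega) (by omega)
  rcases Nat.lt_or_ge i 5693 with h30 | h30
  · exact chunkJ 5662 31 (by norm_num) full8 i8_c150 i (by omega) (by omega)
  rcases Nat.lt_or_ge i 5712 with h31 | h31
  · exact chunkJ 5693 19 (by norm_num) full8 i8_c151 i (by omega) (by omega)
  rcases Nat.lt_or_ge i 5743 with h32 | h32
  · exact chunkJ 5712 31 (by norm_num) full8 i8_c152 i (by omega) (by omega)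
  rcases Nat.lt_or_ge i 5761 with h33 | h33
  · exact chunkJ 5743 18 (by norm_num) full8 i8_c153 i (by omega) (by omega)
  rcases Nat.lt_or_ge i 5786 with h34 | h34
  · exact chunkJ 5761 25 (by norm_num) full8 i8_c154 i (by omega) (by omega)
  rcases Nat.lt_or_ge i 5806 with h35 | h35
  · exact chunkJ 5786 20 (by norm_num) full8 i8_c155 i (by omega) (by omega)
  rcases Nat.lt_or_ge i 5849 with h36 | h36
  · exact chunkJ 5806 43 (by norm_num) full8 i8_c156 i (by omega) (by omega)
  rcases Nat.lt_or_ge i 5867 with h37 | h37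
  · exact chunkJ 5849 18 (by norm_num) full8 i8_c157 i (by omega) (by omega)
  rcases Nat.lt_or_ge i 5888 with h38 | h38
  · exact chunkJ 5867 21 (by norm_num) full8 i8_c158 i (by omega) (by omega)
  exact chunkJ 5888 25 (by norm_num) full8 i8_c159 i (by omega) (by omega)

end Pool.Agent.TW4.So
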