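import Pool.Agent.TW4.So.Data.I8_4a
import Pool.Agent.TW4.So.Data.I8_4b
import Pool.Agent.TW4.So.Data.I8_4c
import Pool.Agent.TW4.So.Data.I8_4d
import Pool.Agent.TW4.So.Data.I8_4e

namespace Pool.Agent.TW4.So

open Pool.Agent.TW4 Pool.Agent.TW4.Sm

theorem allI8_4 : ∀ i, 5913 ≤ i → i < 7288 → QI true 8 F9 A9 38869 (ent 8 F8 A8 i) := by
  intro i hl hi
  rcases Nat.lt_or_ge i 5930 with h0 | h0
  · exact chunkJ 5913 17 (by norm_num) full8 i8_c160 i (by omega) (by omega)
  rcases Nat.lt_or_ge i 5952 with h1 | h1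
  · exact chunkJ 5930 22 (by norm_num) full8 i8_c161 i (by omega) (by omega)
  rcases Nat.lt_or_ge i 5975 with h2 | h2
  · exact chunkJ 5952 23 (by norm_num) full8 i8_c162 i (by omega) (by omega)
  rcases Nat.lt_or_ge i 6024 with h3 | h3
  · exact chunkJ 5975 49 (by norm_num) full8 i8_c163 i (by omega) (by omega)
  rcases Nat.lt_or_ge i 6048 with h4 | h4
  · exact chunkJ 6024 24 (by norm_num) full8 i8_c164 i (by omega) (by omega)
  rcases Nat.lt_or_ge i 6062 with h5 | h5
  · exact chunkJ 6048 14 (by norm_num) full8 i8_c165 i (by omega) (by omega)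
  rcases Nat.lt_or_ge i 6214 with h6 | h6
  · exact chunkJ 6062 152 (by norm_num) full8 i8_c166 i (by omega) (by omega)
  rcases Nat.lt_or_ge i 6269 with h7 | h7
  · exact chunkJ 6214 55 (by norm_num) full8 i8_c167 i (by omega) (by omega)
  rcases Nat.lt_or_ge i 6350 with h8 | h8
  · exact chunkJ 6269 81 (by norm_num) full8 i8_c168 i (by omega) (by omega)
  rcases Nat.lt_or_ge i 6389 with h9 | h9
  · exact chunkJ 6350 39 (by norm_num) full8 i8_c169 i (by omega) (by omega)
  rcases Nat.lt_or_ge i 6412 with h10 | h10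
  · exact chunkJ 6389 23 (by norm_num) full8 i8_c170 i (by omega) (by omega)
  rcases Nat.lt_or_ge i 6437 with h11 | h11
  · exact chunkJ 6412 25 (by norm_num) full8 i8_c171 i (by omega) (by omega)
  rcases Nat.lt_or_ge i 6465 with h12 | h12
  · exact chunkJ 6437 28 (by norm_num) full8 i8_c172 i (by omega) (by omega)
  rcases Nat.lt_or_ge i 6536 with h13 | h13
  · exact chunkJ 6465 71 (by norm_num) full8 i8_c173 i (by omega) (by omega)
  rcases Nat.lt_or_ge i 6593 with h14 | h14
  · exact chunkJ 6536 57 (by norm_num) full8 i8_c174 i (by omega) (by omega)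
  rcases Nat.lt_or_ge i 6616 with h15 | h15
  · exact chunkJ 6593 23 (by norm_num) full8 i8_c175 i (by omega) (by omega)
  rcases Nat.lt_or_ge i 6642 with h16 | h16
  · exact chunkJ 6616 26 (by norm_num) full8 i8_c176 i (by omega) (by omega)
  rcases Nat.lt_or_ge i 6660 with h17 | h17
  · exact chunkJ 6642 18 (by norm_num) full8 i8_c177 i (by omega) (by omega)
  rcases Nat.lt_or_ge i 6694 with h18 | h18
  · exact chunkJ 6660 34 (by norm_num) full8 i8_c178 i (by omega) (by omega)
  rcases Nat.lt_or_ge i 6709 with h19 | h19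
  · exact chunkJ 6694 15 (by norm_num) full8 i8_c179 i (by omega) (by omega)
  rcases Nat.lt_or_ge i 6746 with h20 | h20
  · exact chunkJ 6709 37 (by norm_num) full8 i8_c180 i (by omega) (by omega)
  rcases Nat.lt_or_ge i 6782 with h21 | h21
  · exact chunkJ 6746 36 (by norm_num) full8 i8_c181 i (by omega) (by omega)
  rcases Nat.lt_or_ge i 6803 with h22 | h22
  · exact chunkJ 6782 21 (by norm_num) full8 i8_c182 i (by omega) (by omega)
  rcases Nat.lt_or_ge i 6833 with h23 | h23
  · exact chunkJ 6803 30 (by norm_num) full8 i8_c183 i (by omega) (by omega)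
  rcases Nat.lt_or_ge i 6850 with h24 | h24
  · exact chunkJ 6833 17 (by norm_num) full8 i8_c184 i (by omega) (by omega)
  rcases Nat.lt_or_ge i 6924 with h25 | h25
  · exact chunkJ 6850 74 (by norm_num) full8 i8_c185 i (by omega) (by omega)
  rcases Nat.lt_or_ge i 6980 with h26 | h26
  · exact chunkJ 6924 56 (by norm_num) full8 i8_c186 i (by omega) (by omega)
  rcases Nat.lt_or_ge i 7009 with h27 | h27
  · exact chunkJ 6980 29 (by norm_num) full8 i8_c187 i (by omega) (by omega)
  rcases Nat.lt_or_ge i 7033 with h28 | h28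
  · exact chunkJ 7009 24 (by norm_num) full8 i8_c188 i (by omega) (by omega)
  rcases Nat.lt_or_ge i 7053 with h29 | h29
  · exact chunkJ 7033 20 (by norm_num) full8 i8_c189 i (by omega) (by omega)
  rcases Nat.lt_or_ge i 7083 with h30 | h30
  · exact chunkJ 7053 30 (by norm_num) full8 i8_c190 i (by omega) (by omega)
  rcases Nat.lt_or_ge i 7113 with h31 | h31
  · exact chunkJ 7083 30 (by norm_num) full8 i8_c191 i (by omega) (by omega)
  rcases Nat.lt_or_ge i 7140 with h32 | h32
  · exact chunkJ 7113 27 (by norm_num) full8 i8_c192 i (by omega) (by omega)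
  rcases Nat.lt_or_ge i 7176 with h33 | h33
  · exact chunkJ 7140 36 (by norm_num) full8 i8_c193 i (by omega) (by omega)
  rcases Nat.lt_or_ge i 7194 with h34 | h34
  · exact chunkJ 7176 18 (by norm_num) full8 i8_c194 i (by omega) (by omega)
  rcases Nat.lt_or_ge i 7209 with h35 | h35
  · exact chunkJ 7194 15 (by norm_num) full8 i8_c195 i (by omega) (by omega)
  rcases Nat.lt_or_ge i 7224 with h36 | h36
  · exact chunkJ 7209 15 (by norm_num) full8 i8_c196 i (by omega) (by omega)
  rcases Nat.lt_or_ge i 7246 with h37 | h37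
  · exact chunkJ 7224 22 (by norm_num) full8 i8_c197 i (by omega) (by omega)
  rcases Nat.lt_or_ge i 7270 with h38 | h38
  · exact chunkJ 7246 24 (by norm_num) full8 i8_c198 i (by omega) (by omega)
  exact chunkJ 7270 18 (by norm_num) full8 i8_c199 i (by omega) (by omega)

end Pool.Agent.TW4.So
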