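import Pool.Agent.TW4.So.Data.I8_5a
import Pool.Agent.TW4.So.Data.I8_5b
import Pool.Agent.TW4.So.Data.I8_5c
import Pool.Agent.TW4.So.Data.I8_5d
import Pool.Agent.TW4.So.Data.I8_5e

namespace Pool.Agent.TW4.So

open Pool.Agent.TW4 Pool.Agent.TW4.Sm

theorem allI8_5 : ∀ i, 7288 ≤ i → i < 8337 → QI true 8 F9 A9 38869 (ent 8 F8 A8 i) := by
  intro i hl hi
  rcases Nat.lt_or_ge i 7305 with h0 | h0
  · exact chunkJ 7288 17 (by norm_num) full8 i8_c200 i (by omega) (by omega)
  rcases Nat.lt_or_ge i 7335 with h1 | h1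
  · exact chunkJ 7305 30 (by norm_num) full8 i8_c201 i (by omega) (by omega)
  rcases Nat.lt_or_ge i 7357 with h2 | h2
  · exact chunkJ 7335 22 (by norm_num) full8 i8_c202 i (by omega) (by omega)
  rcases Nat.lt_or_ge i 7380 with h3 | h3
  · exact chunkJ 7357 23 (by norm_num) full8 i8_c203 i (by omega) (by omega)
  rcases Nat.lt_or_ge i 7406 with h4 | h4
  · exact chunkJ 7380 26 (by norm_num) full8 i8_c204 i (by omega) (by omega)
  rcases Nat.lt_or_ge i 7426 with h5 | h5
  · exact chunkJ 7406 20 (by norm_num) full8 i8_c205 i (by omega) (by omega)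
  rcases Nat.lt_or_ge i 7454 with h6 | h6
  · exact chunkJ 7426 28 (by norm_num) full8 i8_c206 i (by omega) (by omega)
  rcases Nat.lt_or_ge i 7477 with h7 | h7
  · exact chunkJ 7454 23 (by norm_num) full8 i8_c207 i (by omega) (by omega)
  rcases Nat.lt_or_ge i 7500 with h8 | h8
  · exact chunkJ 7477 23 (by norm_num) full8 i8_c208 i (by omega) (by omega)
  rcases Nat.lt_or_ge i 7523 with h9 | h9
  · exact chunkJ 7500 23 (by norm_num) full8 i8_c209 i (by omega) (by omega)
  rcases Nat.lt_or_ge i 7543 with h10 | h10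
  · exact chunkJ 7523 20 (by norm_num) full8 i8_c210 i (by omega) (by omega)
  rcases Nat.lt_or_ge i 7629 with h11 | h11
  · exact chunkJ 7543 86 (by norm_num) full8 i8_c211 i (by omega) (by omega)
  rcases Nat.lt_or_ge i 7663 with h12 | h12
  · exact chunkJ 7629 34 (by norm_num) full8 i8_c212 i (by omega) (by omega)
  rcases Nat.lt_or_ge i 7692 with h13 | h13
  · exact chunkJ 7663 29 (by norm_num) full8 i8_c213 i (by omega) (by omega)
  rcases Nat.lt_or_ge i 7719 with h14 | h14
  · exact chunkJ 7692 27 (by norm_num) full8 i8_c214 i (by omega) (by omega)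
  rcases Nat.lt_or_ge i 7755 with h15 | h15
  · exact chunkJ 7719 36 (by norm_num) full8 i8_c215 i (by omega) (by omega)
  rcases Nat.lt_or_ge i 7791 with h16 | h16
  · exact chunkJ 7755 36 (by norm_num) full8 i8_c216 i (by omega) (by omega)
  rcases Nat.lt_or_ge i 7816 with h17 | h17
  · exact chunkJ 7791 25 (by norm_num) full8 i8_c217 i (by omega) (by omega)
  rcases Nat.lt_or_ge i 7842 with h18 | h18
  · exact chunkJ 7816 26 (by norm_num) full8 i8_c218 i (by omega) (by omega)
  rcases Nat.lt_or_ge i 7866 with h19 | h19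
  · exact chunkJ 7842 24 (by norm_num) full8 i8_c219 i (by omega) (by omega)
  rcases Nat.lt_or_ge i 7878 with h20 | h20
  · exact chunkJ 7866 12 (by norm_num) full8 i8_c220 i (by omega) (by omega)
  rcases Nat.lt_or_ge i 7900 with h21 | h21
  · exact chunkJ 7878 22 (by norm_num) full8 i8_c221 i (by omega) (by omega)
  rcases Nat.lt_or_ge i 7927 with h22 | h22
  · exact chunkJ 7900 27 (by norm_num) full8 i8_c222 i (by omega) (by omega)
  rcases Nat.lt_or_ge i 7954 with h23 | h23
  · exact chunkJ 7927 27 (by norm_num) full8 i8_c223 i (by omega) (by omega)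
  rcases Nat.lt_or_ge i 7987 with h24 | h24
  · exact chunkJ 7954 33 (by norm_num) full8 i8_c224 i (by omega) (by omega)
  rcases Nat.lt_or_ge i 8021 with h25 | h25
  · exact chunkJ 7987 34 (by norm_num) full8 i8_c225 i (by omega) (by omega)
  rcases Nat.lt_or_ge i 8049 with h26 | h26
  · exact chunkJ 8021 28 (by norm_num) full8 i8_c226 i (by omega) (by omega)
  rcases Nat.lt_or_ge i 8066 with h27 | h27
  · exact chunkJ 8049 17 (by norm_num) full8 i8_c227 i (by omega) (by omega)
  rcases Nat.lt_or_ge i 8088 with h28 | h28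
  · exact chunkJ 8066 22 (by norm_num) full8 i8_c228 i (by omega) (by omega)
  rcases Nat.lt_or_ge i 8110 with h29 | h29
  · exact chunkJ 8088 22 (by norm_num) full8 i8_c229 i (by omega) (by omega)
  rcases Nat.lt_or_ge i 8131 with h30 | h30
  · exact chunkJ 8110 21 (by norm_num) full8 i8_c230 i (by omega) (by omega)
  rcases Nat.lt_or_ge i 8153 with h31 | h31
  · exact chunkJ 8131 22 (by norm_num) full8 i8_c231 i (by omega) (by omega)
  rcases Nat.lt_or_ge i 8166 with h32 | h32
  · exact chunkJ 8153 13 (by norm_num) full8 i8_c232 i (by omega) (by omega)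
  rcases Nat.lt_or_ge i 8187 with h33 | h33
  · exact chunkJ 8166 21 (by norm_num) full8 i8_c233 i (by omega) (by omega)
  rcases Nat.lt_or_ge i 8211 with h34 | h34
  · exact chunkJ 8187 24 (by norm_num) full8 i8_c234 i (by omega) (by omega)
  rcases Nat.lt_or_ge i 8234 with h35 | h35
  · exact chunkJ 8211 23 (by norm_num) full8 i8_c235 i (by omega) (by omega)
  rcases Nat.lt_or_ge i 8250 with h36 | h36
  · exact chunkJ 8234 16 (by norm_num) full8 i8_c236 i (by omega) (by omega)
  rcases Nat.lt_or_ge i 8275 with h37 | h37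
  · exact chunkJ 8250 25 (by norm_num) full8 i8_c237 i (by omega) (by omega)
  rcases Nat.lt_or_ge i 8313 with h38 | h38
  · exact chunkJ 8275 38 (by norm_num) full8 i8_c238 i (by omega) (by omega)
  exact chunkJ 8313 24 (by norm_num) full8 i8_c239 i (by omega) (by omega)

end Pool.Agent.TW4.So
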