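import Pool.Agent.TW4.So.Data.I8_6a
import Pool.Agent.TW4.So.Data.I8_6b
import Pool.Agent.TW4.So.Data.I8_6c
import Pool.Agent.TW4.So.Data.I8_6d
import Pool.Agent.TW4.So.Data.I8_6e

namespace Pool.Agent.TW4.So

open Pool.Agent.TW4 Pool.Agent.TW4.Sm

theorem allI8_6 : ∀ i, 8337 ≤ i → i < 9399 → QI true 8 F9 A9 38869 (ent 8 F8 A8 i) := by
  intro i hl hi
  rcases Nat.lt_or_ge i 8378 with h0 | h0
  · exact chunkJ 8337 41 (by norm_num) full8 i8_c240 i (by omega) (by omega)
  rcases Nat.lt_or_ge i 8402 with h1 | h1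
  · exact chunkJ 8378 24 (by norm_num) full8 i8_c241 i (by omega) (by omega)
  rcases Nat.lt_or_ge i 8422 with h2 | h2
  · exact chunkJ 8402 20 (by norm_num) full8 i8_c242 i (by omega) (by omega)
  rcases Nat.lt_or_ge i 8431 with h3 | h3
  · exact chunkJ 8422 9 (by norm_num) full8 i8_c243 i (by omega) (by omega)
  rcases Nat.lt_or_ge i 8465 with h4 | h4
  · exact chunkJ 8431 34 (by norm_num) full8 i8_c244 i (by omega) (by omega)
  rcases Nat.lt_or_ge i 8481 with h5 | h5
  · exact chunkJ 8465 16 (by norm_num) full8 i8_c245 i (by omega) (by omega)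
  rcases Nat.lt_or_ge i 8509 with h6 | h6
  · exact chunkJ 8481 28 (by norm_num) full8 i8_c246 i (by omega) (by omega)
  rcases Nat.lt_or_ge i 8533 with h7 | h7
  · exact chunkJ 8509 24 (by norm_num) full8 i8_c247 i (by omega) (by omega)
  rcases Nat.lt_or_ge i 8562 with h8 | h8
  · exact chunkJ 8533 29 (by norm_num) full8 i8_c248 i (by omega) (by omega)
  rcases Nat.lt_or_ge i 8580 with h9 | h9
  · exact chunkJ 8562 18 (by norm_num) full8 i8_c249 i (by omega) (by omega)
  rcases Nat.lt_or_ge i 8615 with h10 | h10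
  · exact chunkJ 8580 35 (by norm_num) full8 i8_c250 i (by omega) (by omega)
  rcases Nat.lt_or_ge i 8647 with h11 | h11
  · exact chunkJ 8615 32 (by norm_num) full8 i8_c251 i (by omega) (by omega)
  rcases Nat.lt_or_ge i 8666 with h12 | h12
  · exact chunkJ 8647 19 (by norm_num) full8 i8_c252 i (by omega) (by omega)
  rcases Nat.lt_or_ge i 8690 with h13 | h13
  · exact chunkJ 8666 24 (by norm_num) full8 i8_c253 i (by omega) (by omega)
  rcases Nat.lt_or_ge i 8722 with h14 | h14
  · exact chunkJ 8690 32 (by norm_num) full8 i8_c254 i (by omega) (by omega)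
  rcases Nat.lt_or_ge i 8744 with h15 | h15
  · exact chunkJ 8722 22 (by norm_num) full8 i8_c255 i (by omega) (by omega)
  rcases Nat.lt_or_ge i 8780 with h16 | h16
  · exact chunkJ 8744 36 (by norm_num) full8 i8_c256 i (by omega) (by omega)
  rcases Nat.lt_or_ge i 8800 with h17 | h17
  · exact chunkJ 8780 20 (by norm_num) full8 i8_c257 i (by omega) (by omega)
  rcases Nat.lt_or_ge i 8817 with h18 | h18
  · exact chunkJ 8800 17 (by norm_num) full8 i8_c258 i (by omega) (by omega)
  rcases Nat.lt_or_ge i 8836 with h19 | h19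
  · exact chunkJ 8817 19 (by norm_num) full8 i8_c259 i (by omega) (by omega)
  rcases Nat.lt_or_ge i 8865 with h20 | h20
  · exact chunkJ 8836 29 (by norm_num) full8 i8_c260 i (by omega) (by omega)
  rcases Nat.lt_or_ge i 8882 with h21 | h21
  · exact chunkJ 8865 17 (by norm_num) full8 i8_c261 i (by omega) (by omega)
  rcases Nat.lt_or_ge i 8907 with h22 | h22
  · exact chunkJ 8882 25 (by norm_num) full8 i8_c262 i (by omega) (by omega)
  rcases Nat.lt_or_ge i 8919 with h23 | h23
  · exact chunkJ 8907 12 (by norm_num) full8 i8_c263 i (by omega) (by omega)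
  rcases Nat.lt_or_ge i 8933 with h24 | h24
  · exact chunkJ 8919 14 (by norm_num) full8 i8_c264 i (by omega) (by omega)
  rcases Nat.lt_or_ge i 8996 with h25 | h25
  · exact chunkJ 8933 63 (by norm_num) full8 i8_c265 i (by omega) (by omega)
  rcases Nat.lt_or_ge i 9045 with h26 | h26
  · exact chunkJ 8996 49 (by norm_num) full8 i8_c266 i (by omega) (by omega)
  rcases Nat.lt_or_ge i 9072 with h27 | h27
  · exact chunkJ 9045 27 (by norm_num) full8 i8_c267 i (by omega) (by omega)
  rcases Nat.lt_or_ge i 9105 with h28 | h28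
  · exact chunkJ 9072 33 (by norm_num) full8 i8_c268 i (by omega) (by omega)
  rcases Nat.lt_or_ge i 9135 with h29 | h29
  · exact chunkJ 9105 30 (by norm_num) full8 i8_c269 i (by omega) (by omega)
  rcases Nat.lt_or_ge i 9162 with h30 | h30
  · exact chunkJ 9135 27 (by norm_num) full8 i8_c270 i (by omega) (by omega)
  rcases Nat.lt_or_ge i 9181 with h31 | h31
  · exact chunkJ 9162 19 (by norm_num) full8 i8_c271 i (by omega) (by omega)
  rcases Nat.lt_or_ge i 9197 with h32 | h32
  · exact chunkJ 9181 16 (by norm_num) full8 i8_c272 i (by omega) (by omega)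
  rcases Nat.lt_or_ge i 9243 with h33 | h33
  · exact chunkJ 9197 46 (by norm_num) full8 i8_c273 i (by omega) (by omega)
  rcases Nat.lt_or_ge i 9264 with h34 | h34
  · exact chunkJ 9243 21 (by norm_num) full8 i8_c274 i (by omega) (by omega)
  rcases Nat.lt_or_ge i 9293 with h35 | h35
  · exact chunkJ 9264 29 (by norm_num) full8 i8_c275 i (by omega) (by omega)
  rcases Nat.lt_or_ge i 9312 with h36 | h36
  · exact chunkJ 9293 19 (by norm_num) full8 i8_c276 i (by omega) (by omega)
  rcases Nat.lt_or_ge i 9338 with h37 | h37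
  · exact chunkJ 9312 26 (by norm_num) full8 i8_c277 i (by omega) (by omega)
  rcases Nat.lt_or_ge i 9361 with h38 | h38
  · exact chunkJ 9338 23 (by norm_num) full8 i8_c278 i (by omega) (by omega)
  exact chunkJ 9361 38 (by norm_num) full8 i8_c279 i (by omega) (by omega)

end Pool.Agent.TW4.So
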