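import Pool.Agent.TW4.So.Data.I8_7a
import Pool.Agent.TW4.So.Data.I8_7b
import Pool.Agent.TW4.So.Data.I8_7c
import Pool.Agent.TW4.So.Data.I8_7d
import Pool.Agent.TW4.So.Data.I8_7e

namespace Pool.Agent.TW4.So

open Pool.Agent.TW4 Pool.Agent.TW4.Sm

theorem allI8_7 : ∀ i, 9399 ≤ i → i < 10341 → QI true 8 F9 A9 38869 (ent 8 F8 A8 i) := by
  intro i hl hi
  rcases Nat.lt_or_ge i 9440 with h0 | h0
  · exact chunkJ 9399 41 (by norm_num) full8 i8_c280 i (by omega) (by omega)
  rcases Nat.lt_or_ge i 9460 with h1 | h1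
  · exact chunkJ 9440 20 (by norm_num) full8 i8_c281 i (by omega) (by omega)
  rcases Nat.lt_or_ge i 9479 with h2 | h2
  · exact chunkJ 9460 19 (by norm_num) full8 i8_c282 i (by omega) (by omega)
  rcases Nat.lt_or_ge i 9495 with h3 | h3
  · exact chunkJ 9479 16 (by norm_num) full8 i8_c283 i (by omega) (by omega)
  rcases Nat.lt_or_ge i 9523 with h4 | h4
  · exact chunkJ 9495 28 (by norm_num) full8 i8_c284 i (by omega) (by omega)
  rcases Nat.lt_or_ge i 9546 with h5 | h5
  · exact chunkJ 9523 23 (by norm_num) full8 i8_c285 i (by omega) (by omega)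
  rcases Nat.lt_or_ge i 9573 with h6 | h6
  · exact chunkJ 9546 27 (by norm_num) full8 i8_c286 i (by omega) (by omega)
  rcases Nat.lt_or_ge i 9594 with h7 | h7
  · exact chunkJ 9573 21 (by norm_num) full8 i8_c287 i (by omega) (by omega)
  rcases Nat.lt_or_ge i 9629 with h8 | h8
  · exact chunkJ 9594 35 (by norm_num) full8 i8_c288 i (by omega) (by omega)
  rcases Nat.lt_or_ge i 9645 with h9 | h9
  · exact chunkJ 9629 16 (by norm_num) full8 i8_c289 i (by omega) (by omega)
  rcases Nat.lt_or_ge i 9668 with h10 | h10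
  · exact chunkJ 9645 23 (by norm_num) full8 i8_c290 i (by omega) (by omega)
  rcases Nat.lt_or_ge i 9687 with h11 | h11
  · exact chunkJ 9668 19 (by norm_num) full8 i8_c291 i (by omega) (by omega)
  rcases Nat.lt_or_ge i 9716 with h12 | h12
  · exact chunkJ 9687 29 (by norm_num) full8 i8_c292 i (by omega) (by omega)
  rcases Nat.lt_or_ge i 9751 with h13 | h13
  · exact chunkJ 9716 35 (by norm_num) full8 i8_c293 i (by omega) (by omega)
  rcases Nat.lt_or_ge i 9779 with h14 | h14
  · exact chunkJ 9751 28 (by norm_num) full8 i8_c294 i (by omega) (by omega)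
  rcases Nat.lt_or_ge i 9794 with h15 | h15
  · exact chunkJ 9779 15 (by norm_num) full8 i8_c295 i (by omega) (by omega)
  rcases Nat.lt_or_ge i 9815 with h16 | h16
  · exact chunkJ 9794 21 (by norm_num) full8 i8_c296 i (by omega) (by omega)
  rcases Nat.lt_or_ge i 9843 with h17 | h17
  · exact chunkJ 9815 28 (by norm_num) full8 i8_c297 i (by omega) (by omega)
  rcases Nat.lt_or_ge i 9856 with h18 | h18
  · exact chunkJ 9843 13 (by norm_num) full8 i8_c298 i (by omega) (by omega)
  rcases Nat.lt_or_ge i 9886 with h19 | h19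
  · exact chunkJ 9856 30 (by norm_num) full8 i8_c299 i (by omega) (by omega)
  rcases Nat.lt_or_ge i 9911 with h20 | h20
  · exact chunkJ 9886 25 (by norm_num) full8 i8_c300 i (by omega) (by omega)
  rcases Nat.lt_or_ge i 9934 with h21 | h21
  · exact chunkJ 9911 23 (by norm_num) full8 i8_c301 i (by omega) (by omega)
  rcases Nat.lt_or_ge i 9959 with h22 | h22
  · exact chunkJ 9934 25 (by norm_num) full8 i8_c302 i (by omega) (by omega)
  rcases Nat.lt_or_ge i 9981 with h23 | h23
  · exact chunkJ 9959 22 (by norm_num) full8 i8_c303 i (by omega) (by omega)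
  rcases Nat.lt_or_ge i 9997 with h24 | h24
  · exact chunkJ 9981 16 (by norm_num) full8 i8_c304 i (by omega) (by omega)
  rcases Nat.lt_or_ge i 10021 with h25 | h25
  · exact chunkJ 9997 24 (by norm_num) full8 i8_c305 i (by omega) (by omega)
  rcases Nat.lt_or_ge i 10033 with h26 | h26
  · exact chunkJ 10021 12 (by norm_num) full8 i8_c306 i (by omega) (by omega)
  rcases Nat.lt_or_ge i 10070 with h27 | h27
  · exact chunkJ 10033 37 (by norm_num) full8 i8_c307 i (by omega) (by omega)
  rcases Nat.lt_or_ge i 10093 with h28 | h28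
  · exact chunkJ 10070 23 (by norm_num) full8 i8_c308 i (by omega) (by omega)
  rcases Nat.lt_or_ge i 10119 with h29 | h29
  · exact chunkJ 10093 26 (by norm_num) full8 i8_c309 i (by omega) (by omega)
  rcases Nat.lt_or_ge i 10144 with h30 | h30
  · exact chunkJ 10119 25 (by norm_num) full8 i8_c310 i (by omega) (by omega)
  rcases Nat.lt_or_ge i 10161 with h31 | h31
  · exact chunkJ 10144 17 (by norm_num) full8 i8_c311 i (by omega) (by omega)
  rcases Nat.lt_or_ge i 10183 with h32 | h32
  · exact chunkJ 10161 22 (by norm_num) full8 i8_c312 i (by omega) (by omega)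
  rcases Nat.lt_or_ge i 10210 with h33 | h33
  · exact chunkJ 10183 27 (by norm_num) full8 i8_c313 i (by omega) (by omega)
  rcases Nat.lt_or_ge i 10239 with h34 | h34
  · exact chunkJ 10210 29 (by norm_num) full8 i8_c314 i (by omega) (by omega)
  rcases Nat.lt_or_ge i 10263 with h35 | h35
  · exact chunkJ 10239 24 (by norm_num) full8 i8_c315 i (by omega) (by omega)
  rcases Nat.lt_or_ge i 10287 with h36 | h36
  · exact chunkJ 10263 24 (by norm_num) full8 i8_c316 i (by omega) (by omega)
  rcases Nat.lt_or_ge i 10303 with h37 | h37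
  · exact chunkJ 10287 16 (by norm_num) full8 i8_c317 i (by omega) (by omega)
  rcases Nat.lt_or_ge i 10325 with h38 | h38
  · exact chunkJ 10303 22 (by norm_num) full8 i8_c318 i (by omega) (by omega)
  exact chunkJ 10325 16 (by norm_num) full8 i8_c319 i (by omega) (by omega)

end Pool.Agent.TW4.So
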