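import Pool.Agent.TW4.So.Data.I8_8a
import Pool.Agent.TW4.So.Data.I8_8b
import Pool.Agent.TW4.So.Data.I8_8c
import Pool.Agent.TW4.So.Data.I8_8d
import Pool.Agent.TW4.So.Data.I8_8e

namespace Pool.Agent.TW4.So

open Pool.Agent.TW4 Pool.Agent.TW4.Sm

theorem allI8_8 : ∀ i, 10341 ≤ i → i < 11231 → QI true 8 F9 A9 38869 (ent 8 F8 A8 i) := by
  intro i hl hi
  rcases Nat.lt_or_ge i 10374 with h0 | h0
  · exact chunkJ 10341 33 (by norm_num) full8 i8_c320 i (by omega) (by omega)
  rcases Nat.lt_or_ge i 10401 with h1 | h1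
  · exact chunkJ 10374 27 (by norm_num) full8 i8_c321 i (by omega) (by omega)
  rcases Nat.lt_or_ge i 10428 with h2 | h2
  · exact chunkJ 10401 27 (by norm_num) full8 i8_c322 i (by omega) (by omega)
  rcases Nat.lt_or_ge i 10454 with h3 | h3
  · exact chunkJ 10428 26 (by norm_num) full8 i8_c323 i (by omega) (by omega)
  rcases Nat.lt_or_ge i 10465 with h4 | h4
  · exact chunkJ 10454 11 (by norm_num) full8 i8_c324 i (by omega) (by omega)
  rcases Nat.lt_or_ge i 10489 with h5 | h5
  · exact chunkJ 10465 24 (by norm_num) full8 i8_c325 i (by omega) (by omega)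
  rcases Nat.lt_or_ge i 10505 with h6 | h6
  · exact chunkJ 10489 16 (by norm_num) full8 i8_c326 i (by omega) (by omega)
  rcases Nat.lt_or_ge i 10530 with h7 | h7
  · exact chunkJ 10505 25 (by norm_num) full8 i8_c327 i (by omega) (by omega)
  rcases Nat.lt_or_ge i 10559 with h8 | h8
  · exact chunkJ 10530 29 (by norm_num) full8 i8_c328 i (by omega) (by omega)
  rcases Nat.lt_or_ge i 10577 with h9 | h9
  · exact chunkJ 10559 18 (by norm_num) full8 i8_c329 i (by omega) (by omega)
  rcases Nat.lt_or_ge i 10593 with h10 | h10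
  · exact chunkJ 10577 16 (by norm_num) full8 i8_c330 i (by omega) (by omega)
  rcases Nat.lt_or_ge i 10620 with h11 | h11
  · exact chunkJ 10593 27 (by norm_num) full8 i8_c331 i (by omega) (by omega)
  rcases Nat.lt_or_ge i 10638 with h12 | h12
  · exact chunkJ 10620 18 (by norm_num) full8 i8_c332 i (by omega) (by omega)
  rcases Nat.lt_or_ge i 10664 with h13 | h13
  · exact chunkJ 10638 26 (by norm_num) full8 i8_c333 i (by omega) (by omega)
  rcases Nat.lt_or_ge i 10688 with h14 | h14
  · exact chunkJ 10664 24 (by norm_num) full8 i8_c334 i (by omega) (by omega)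
  rcases Nat.lt_or_ge i 10709 with h15 | h15
  · exact chunkJ 10688 21 (by norm_num) full8 i8_c335 i (by omega) (by omega)
  rcases Nat.lt_or_ge i 10726 with h16 | h16
  · exact chunkJ 10709 17 (by norm_num) full8 i8_c336 i (by omega) (by omega)
  rcases Nat.lt_or_ge i 10748 with h17 | h17
  · exact chunkJ 10726 22 (by norm_num) full8 i8_c337 i (by omega) (by omega)
  rcases Nat.lt_or_ge i 10767 with h18 | h18
  · exact chunkJ 10748 19 (by norm_num) full8 i8_c338 i (by omega) (by omega)
  rcases Nat.lt_or_ge i 10794 with h19 | h19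
  · exact chunkJ 10767 27 (by norm_num) full8 i8_c339 i (by omega) (by omega)
  rcases Nat.lt_or_ge i 10819 with h20 | h20
  · exact chunkJ 10794 25 (by norm_num) full8 i8_c340 i (by omega) (by omega)
  rcases Nat.lt_or_ge i 10837 with h21 | h21
  · exact chunkJ 10819 18 (by norm_num) full8 i8_c341 i (by omega) (by omega)
  rcases Nat.lt_or_ge i 10859 with h22 | h22
  · exact chunkJ 10837 22 (by norm_num) full8 i8_c342 i (by omega) (by omega)
  rcases Nat.lt_or_ge i 10878 with h23 | h23
  · exact chunkJ 10859 19 (by norm_num) full8 i8_c343 i (by omega) (by omega)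
  rcases Nat.lt_or_ge i 10895 with h24 | h24
  · exact chunkJ 10878 17 (by norm_num) full8 i8_c344 i (by omega) (by omega)
  rcases Nat.lt_or_ge i 10907 with h25 | h25
  · exact chunkJ 10895 12 (by norm_num) full8 i8_c345 i (by omega) (by omega)
  rcases Nat.lt_or_ge i 10921 with h26 | h26
  · exact chunkJ 10907 14 (by norm_num) full8 i8_c346 i (by omega) (by omega)
  rcases Nat.lt_or_ge i 10943 with h27 | h27
  · exact chunkJ 10921 22 (by norm_num) full8 i8_c347 i (by omega) (by omega)
  rcases Nat.lt_or_ge i 10964 with h28 | h28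
  · exact chunkJ 10943 21 (by norm_num) full8 i8_c348 i (by omega) (by omega)
  rcases Nat.lt_or_ge i 10984 with h29 | h29
  · exact chunkJ 10964 20 (by norm_num) full8 i8_c349 i (by omega) (by omega)
  rcases Nat.lt_or_ge i 11006 with h30 | h30
  · exact chunkJ 10984 22 (by norm_num) full8 i8_c350 i (by omega) (by omega)
  rcases Nat.lt_or_ge i 11033 with h31 | h31
  · exact chunkJ 11006 27 (by norm_num) full8 i8_c351 i (by omega) (by omega)
  rcases Nat.lt_or_ge i 11059 with h32 | h32
  · exact chunkJ 11033 26 (by norm_num) full8 i8_c352 i (by omega) (by omega)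
  rcases Nat.lt_or_ge i 11088 with h33 | h33
  · exact chunkJ 11059 29 (by norm_num) full8 i8_c353 i (by omega) (by omega)
  rcases Nat.lt_or_ge i 11110 with h34 | h34
  · exact chunkJ 11088 22 (by norm_num) full8 i8_c354 i (by omega) (by omega)
  rcases Nat.lt_or_ge i 11133 with h35 | h35
  · exact chunkJ 11110 23 (by norm_num) full8 i8_c355 i (by omega) (by omega)
  rcases Nat.lt_or_ge i 11154 with h36 | h36
  · exact chunkJ 11133 21 (by norm_num) full8 i8_c356 i (by omega) (by omega)
  rcases Nat.lt_or_ge i 11172 with h37 | h37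
  · exact chunkJ 11154 18 (by norm_num) full8 i8_c357 i (by omega) (by omega)
  rcases Nat.lt_or_ge i 11199 with h38 | h38
  · exact chunkJ 11172 27 (by norm_num) full8 i8_c358 i (by omega) (by omega)
  exact chunkJ 11199 32 (by norm_num) full8 i8_c359 i (by omega) (by omega)

end Pool.Agent.TW4.So
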