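import Pool.Agent.TW4.So.Data.I8_9a
import Pool.Agent.TW4.So.Data.I8_9b
import Pool.Agent.TW4.So.Data.I8_9c

namespace Pool.Agent.TW4.So

open Pool.Agent.TW4 Pool.Agent.TW4.Sm

theorem allI8_9 : ∀ i, 11231 ≤ i → i < 11767 → QI true 8 F9 A9 38869 (ent 8 F8 A8 i) := by
  intro i hl hi
  rcases Nat.lt_or_ge i 11251 with h0 | h0
  · exact chunkJ 11231 20 (by norm_num) full8 i8_c360 i (by omega) (by omega)
  rcases Nat.lt_or_ge i 11276 with h1 | h1
  · exact chunkJ 11251 25 (by norm_num) full8 i8_c361 i (by omega) (by omega)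
  rcases Nat.lt_or_ge i 11297 with h2 | h2
  · exact chunkJ 11276 21 (by norm_num) full8 i8_c362 i (by omega) (by omega)
  rcases Nat.lt_or_ge i 11324 with h3 | h3
  · exact chunkJ 11297 27 (by norm_num) full8 i8_c363 i (by omega) (by omega)
  rcases Nat.lt_or_ge i 11346 with h4 | h4
  · exact chunkJ 11324 22 (by norm_num) full8 i8_c364 i (by omega) (by omega)
  rcases Nat.lt_or_ge i 11376 with h5 | h5
  · exact chunkJ 11346 30 (by norm_num) full8 i8_c365 i (by omega) (by omega)
  rcases Nat.lt_or_ge i 11400 with h6 | h6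
  · exact chunkJ 11376 24 (by norm_num) full8 i8_c366 i (by omega) (by omega)
  rcases Nat.lt_or_ge i 11416 with h7 | h7
  · exact chunkJ 11400 16 (by norm_num) full8 i8_c367 i (by omega) (by omega)
  rcases Nat.lt_or_ge i 11440 with h8 | h8
  · exact chunkJ 11416 24 (by norm_num) full8 i8_c368 i (by omega) (by omega)
  rcases Nat.lt_or_ge i 11461 with h9 | h9
  · exact chunkJ 11440 21 (by norm_num) full8 i8_c369 i (by omega) (by omega)
  rcases Nat.lt_or_ge i 11485 with h10 | h10
  · exact chunkJ 11461 24 (by norm_num) full8 i8_c370 i (by omega) (by omega)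
  rcases Nat.lt_or_ge i 11509 with h11 | h11
  · exact chunkJ 11485 24 (by norm_num) full8 i8_c371 i (by omega) (by omega)
  rcases Nat.lt_or_ge i 11532 with h12 | h12
  · exact chunkJ 11509 23 (by norm_num) full8 i8_c372 i (by omega) (by omega)
  rcases Nat.lt_or_ge i 11548 with h13 | h13
  · exact chunkJ 11532 16 (by norm_num) full8 i8_c373 i (by omega) (by omega)
  rcases Nat.lt_or_ge i 11578 with h14 | h14
  · exact chunkJ 11548 30 (by norm_num) full8 i8_c374 i (by omega) (by omega)
  rcases Nat.lt_or_ge i 11595 with h15 | h15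
  · exact chunkJ 11578 17 (by norm_num) full8 i8_c375 i (by omega) (by omega)
  rcases Nat.lt_or_ge i 11613 with h16 | h16
  · exact chunkJ 11595 18 (by norm_num) full8 i8_c376 i (by omega) (by omega)
  rcases Nat.lt_or_ge i 11641 with h17 | h17
  · exact chunkJ 11613 28 (by norm_num) full8 i8_c377 i (by omega) (by omega)
  rcases Nat.lt_or_ge i 11675 with h18 | h18
  · exact chunkJ 11641 34 (by norm_num) full8 i8_c378 i (by omega) (by omega)
  rcases Nat.lt_or_ge i 11697 with h19 | h19
  · exact chunkJ 11675 22 (by norm_num) full8 i8_c379 i (by omega) (by omega)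
  rcases Nat.lt_or_ge i 11719 with h20 | h20
  · exact chunkJ 11697 22 (by norm_num) full8 i8_c380 i (by omega) (by omega)
  rcases Nat.lt_or_ge i 11740 with h21 | h21
  · exact chunkJ 11719 21 (by norm_num) full8 i8_c381 i (by omega) (by omega)
  rcases Nat.lt_or_ge i 11756 with h22 | h22
  · exact chunkJ 11740 16 (by norm_num) full8 i8_c382 i (by omega) (by omega)
  exact chunkJ 11756 11 (by norm_num) full8 i8_c383 i (by omega) (by omega)

end Pool.Agent.TW4.So
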